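import Pool.Agent.LVS.St

/-!
# LVS, module BES: Bessel's inequality on `[-1, 1]` for the indicator function of a set
-/

set_option autoImplicit false

open MeasureTheory Set

namespace Pool.Agent.LVS

private theorem bes_add (s t : ℝ) : ee (s + t) = ee s * ee t := by
  unfold ee
  rw [← Complex.exp_add]
  congr 1
  push_cast
  ring

private theorem bes_conj (t : ℝ) : (starRingEnd ℂ) (ee t) = ee (-t) := by
  unfold ee
  rw [← Complex.exp_conj]
  congr 1
  simp only [map_mul, Complex.conj_ofReal, Complex.conj_I, map_ofNat]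
  push_cast
  ring

private theorem bes_cont (m : ℤ) : Continuous fun x : ℝ => ee (m * x) := by
  unfold ee
  fun_prop

private theorem bes_int (k : ℤ) :
    ∫ x in Icc (-1 : ℝ) 1, ee (k * x) = if k = 0 then 2 else 0 := by
  rw [integral_Icc_eq_integral_Ioc, ← intervalIntegral.integral_of_le (by norm_num)]
  by_cases hk : k = 0
  · subst hk
    have h : ∀ x : ℝ, ee (((0 : ℤ) : ℝ) * x) = 1 := fun x => by simp [ee]
    simp_rw [h]
    rw [intervalIntegral.integral_const]
    norm_num
  · rw [if_neg hk]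
    have hk' : (k : ℂ) ≠ 0 := by exact_mod_cast hk
    have hc : (2 * Real.pi * k * Complex.I : ℂ) ≠ 0 := by
      refine mul_ne_zero (mul_ne_zero (mul_ne_zero two_ne_zero ?_) hk') Complex.I_ne_zero
      exact_mod_cast Real.pi_ne_zero
    have h1 : ∀ x : ℝ, ee (k * x) = Complex.exp ((2 * Real.pi * k * Complex.I) * x) := fun x => by
      unfold ee
      congr 1
      push_cast
      ring
    simp_rw [h1]
    rw [integral_exp_mul_complex hc]
    have h2 : Complex.exp ((2 * Real.pi * k * Complex.I) * ((1 : ℝ) : ℂ)) = 1 := by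
      rw [← Complex.exp_int_mul_two_pi_mul_I k]
      congr 1
      push_cast
      ring
    have h3 : Complex.exp ((2 * Real.pi * k * Complex.I) * ((-1 : ℝ) : ℂ)) = 1 := by
      rw [← Complex.exp_int_mul_two_pi_mul_I (-k)]
      congr 1
      push_cast
      ring
    rw [h2, h3, sub_self, zero_div]

theorem thm_BES : St_BES := by
  intro E hE hE1 M
  set c : ℤ → ℂ := fun m => ∫ x in E, ee (m * x) with hc
  set S : ℝ := ∑ m ∈ M, ‖c m‖ ^ 2 with hS
  set Q : ℝ → ℂ := fun x => ∑ m ∈ M, (starRingEnd ℂ) (c m) * ee (m * x) with hQ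
  have hS0 : 0 ≤ S := Finset.sum_nonneg fun m _ => by positivity
  have hQc : Continuous Q :=
    continuous_finsetSum _ fun m _ => continuous_const.mul (bes_cont m)
  have hI : IntegrableOn Q (Icc (-1 : ℝ) 1) := hQc.continuousOn.integrableOn_compact isCompact_Icc
  have hIE : IntegrableOn Q E := hI.mono_set hE1
  have hN2 : IntegrableOn (fun x => ‖Q x‖ ^ 2) (Icc (-1 : ℝ) 1) :=
    ((hQc.norm.pow 2).continuousOn).integrableOn_compact isCompact_Icc
  have hN2E : IntegrableOn (fun x => ‖Q x‖ ^ 2) E := hN2.mono_set hE1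
  have hfin : volume E ≠ ⊤ := by
    refine ne_top_of_le_ne_top ?_ (measure_mono hE1)
    rw [Real.volume_Icc]
    exact ENNReal.ofReal_ne_top
  have hcc : ∀ z : ℂ, (starRingEnd ℂ) z * z = ((‖z‖ ^ 2 : ℝ) : ℂ) := fun z => by
    rw [mul_comm, Complex.mul_conj, Complex.normSq_eq_norm_sq]
  have h1 : ∫ x in E, Q x = (S : ℂ) := by
    rw [hQ, integral_finsetSum]
    · rw [hS]
      push_cast
      refine Finset.sum_congr rfl fun m _ => ?_
      rw [integral_const_mul]
      have := hcc (c m)
      rw [hc] at this ⊢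
      simp only at this ⊢
      rw [this]
      push_cast
      rfl
    · intro m _
      exact ((continuous_const.mul (bes_cont m)).continuousOn.integrableOn_compact
        isCompact_Icc).mono_set hE1
  have h2 : ∫ x in Icc (-1 : ℝ) 1, ‖Q x‖ ^ 2 = 2 * S := by
    have h3 : ∀ x : ℝ, ((‖Q x‖ ^ 2 : ℝ) : ℂ) =
        ∑ m ∈ M, ∑ n ∈ M, (starRingEnd ℂ) (c m) * c n * ee (((m - n : ℤ) : ℝ) * x) := by
      intro x
      rw [← hcc (Q x), mul_comm]
      have h4 : (starRingEnd ℂ) (Q x) = ∑ n ∈ M, c n * ee (-(n * x)) := by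
        simp only [hQ]
        rw [map_sum]
        refine Finset.sum_congr rfl fun n _ => ?_
        rw [map_mul, Complex.conj_conj, bes_conj]
      rw [h4]
      simp only [hQ]
      rw [Finset.sum_mul_sum]
      refine Finset.sum_congr rfl fun m _ => Finset.sum_congr rfl fun n _ => ?_
      have h5 : ((m - n : ℤ) : ℝ) * x = m * x + -(n * x) := by push_cast; ring
      rw [h5, bes_add]
      ring
    have h6 : ((∫ x in Icc (-1 : ℝ) 1, ‖Q x‖ ^ 2 : ℝ) : ℂ) = ((2 * S : ℝ) : ℂ) := by
      rw [← integral_complex_ofReal]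
      have h7 : ∀ x : ℝ, ((‖Q x‖ ^ 2 : ℝ) : ℂ) =
        ∑ m ∈ M, ∑ n ∈ M, (starRingEnd ℂ) (c m) * c n * ee (((m - n : ℤ) : ℝ) * x) := h3
      rw [integral_congr_ae (Filter.Eventually.of_forall h7)]
      have hint : ∀ m n : ℤ, IntegrableOn (fun x : ℝ =>
          (starRingEnd ℂ) (c m) * c n * ee (((m - n : ℤ) : ℝ) * x)) (Icc (-1 : ℝ) 1) :=
        fun m n => (continuous_const.mul (bes_cont (m - n))).continuousOn.integrableOn_compact
          isCompact_Icc
      rw [integral_finsetSum _ fun m _ => integrable_finsetSum _ fun n _ => hint m n]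
      have hS' : ((2 * S : ℝ) : ℂ) = ∑ m ∈ M, 2 * ((‖c m‖ ^ 2 : ℝ) : ℂ) := by
        rw [hS, Finset.mul_sum, Complex.ofReal_sum]
        refine Finset.sum_congr rfl fun m _ => ?_
        push_cast
        rfl
      rw [hS']
      refine Finset.sum_congr rfl fun m hm => ?_
      rw [integral_finsetSum _ fun n _ => hint m n]
      rw [Finset.sum_eq_single m]
      · rw [integral_const_mul, bes_int, if_pos (sub_self m), hcc (c m)]
        ring
      · intro n _ hn
        rw [integral_const_mul, bes_int, if_neg (sub_ne_zero.2 (Ne.symm hn)), mul_zero]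
      · intro h
        exact absurd hm h
    exact_mod_cast h6
  have h8 : S ≤ ∫ x in E, ‖Q x‖ := by
    have := norm_integral_le_integral_norm (μ := volume.restrict E) Q
    rw [h1, Complex.norm_real, Real.norm_of_nonneg hS0] at this
    exact this
  have hcon : IntegrableOn (fun _ : ℝ => (1 : ℝ)) E := integrableOn_const hfin
  have h9 : ∫ x in E, ‖Q x‖ ≤ ∫ x in E, (1 / 4 * ‖Q x‖ ^ 2 + 1) := by
    refine integral_mono hIE.norm ((hN2E.const_mul _).add hcon) fun x => ?_
    simp only
    nlinarith [sq_nonneg (‖Q x‖ / 2 - 1)]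
  have h10 : ∫ x in E, (1 / 4 * ‖Q x‖ ^ 2 + 1) = 1 / 4 * (∫ x in E, ‖Q x‖ ^ 2) +
      (volume E).toReal := by
    rw [integral_add (hN2E.const_mul _) hcon, integral_const_mul]
    simp [Measure.real]
  have h11 : ∫ x in E, ‖Q x‖ ^ 2 ≤ ∫ x in Icc (-1 : ℝ) 1, ‖Q x‖ ^ 2 :=
    setIntegral_mono_set hN2 (Filter.Eventually.of_forall fun x => by positivity)
      (Filter.Eventually.of_forall hE1)
  show S ≤ _
  linarith

end Pool.Agent.LVS
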