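import Pool.Agent.LVS.St

set_option autoImplicit false

/-!
# LVS, module DBL
-/

open MeasureTheory Set

namespace Pool.Agent.LVS

/-- the number of `p` with `2 h (k - k') = m` -/
theorem dbl_card (N K k : ℕ) (m : ℤ) :
    ((((hh N) ×ˢ Finset.range K).filter (fun p => p.2 ≠ k)).filter
      (fun p : ℤ × ℕ => 2 * p.1 * ((k : ℤ) - p.2) = m)).card ≤ 2 * m.natAbs.divisors.card := by
  classical
  set T : Finset ℤ := (m.natAbs.divisors.image (fun d : ℕ => (d : ℤ))) ∪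
    (m.natAbs.divisors.image (fun d : ℕ => -(d : ℤ))) with hT
  have hTc : T.card ≤ 2 * m.natAbs.divisors.card := by
    calc T.card ≤ (m.natAbs.divisors.image (fun d : ℕ => (d : ℤ))).card +
        (m.natAbs.divisors.image (fun d : ℕ => -(d : ℤ))).card := Finset.card_union_le _ _
      _ ≤ m.natAbs.divisors.card + m.natAbs.divisors.card :=
        add_le_add Finset.card_image_le Finset.card_image_le
      _ = _ := by ring
  refine le_trans (Finset.card_le_card_of_injOn (fun p => p.1) ?_ ?_) hTc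
  · intro p hp
    have hp' := Finset.mem_filter.mp (Finset.mem_coe.mp hp)
    have hp1 := Finset.mem_filter.mp hp'.1
    have hp2 := Finset.mem_product.mp hp1.1
    have hh0 : p.1 ≠ 0 := (Finset.mem_erase.mp hp2.1).1
    have hk : ((k : ℤ) - p.2) ≠ 0 := by
      intro h
      apply hp1.2
      omega
    have hm : m ≠ 0 := by
      rw [← hp'.2]
      exact mul_ne_zero (mul_ne_zero two_ne_zero hh0) hk
    have hd : p.1 ∣ m := ⟨2 * ((k : ℤ) - p.2), by rw [← hp'.2]; ring⟩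
    have hd' : p.1.natAbs ∈ m.natAbs.divisors :=
      Nat.mem_divisors.mpr ⟨Int.natAbs_dvd_natAbs.mpr hd, Int.natAbs_ne_zero.mpr hm⟩
    simp only [hT, Finset.coe_union, Finset.coe_image, Set.mem_union, Set.mem_image, Finset.mem_coe]
    rcases Int.natAbs_eq p.1 with h | h
    · left; exact ⟨p.1.natAbs, hd', h.symm⟩
    · right; exact ⟨p.1.natAbs, hd', h.symm⟩
  · intro p hp q hq hpq
    have hp' := Finset.mem_filter.mp (Finset.mem_coe.mp hp)
    have hq' := Finset.mem_filter.mp (Finset.mem_coe.mp hq)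
    have hp1 := Finset.mem_filter.mp hp'.1
    have hp2 := Finset.mem_product.mp hp1.1
    have hh0 : p.1 ≠ 0 := (Finset.mem_erase.mp hp2.1).1
    have hpq' : p.1 = q.1 := hpq
    have h1 : 2 * p.1 * ((k : ℤ) - p.2) = 2 * p.1 * ((k : ℤ) - q.2) := by
      rw [hp'.2, hpq', hq'.2]
    have h2 : ((k : ℤ) - p.2) = ((k : ℤ) - q.2) :=
      mul_left_cancel₀ (mul_ne_zero two_ne_zero hh0) h1
    apply Prod.ext hpq'
    omega

/-- the sum over `h` and `k'` -/
theorem dbl_inner (F : ℤ → ℝ) (hF : ∀ m, 0 ≤ F m) (μ D : ℝ) (hμ : 0 ≤ μ) (hD : 0 ≤ D)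
    (hB : ∀ M : Finset ℤ, ∑ m ∈ M, F m ≤ 2 * μ) (N K k : ℕ) (hk : k < K)
    (hDm : ∀ m : ℤ, m ≠ 0 → m.natAbs ≤ 4 * N * K → 2 * (m.natAbs.divisors.card : ℝ) ≤ D) :
    ∑ h ∈ hh N, ∑ k' ∈ Finset.range K, F (2 * h * ((k : ℤ) - k')) ≤
      4 * N * F 0 + D * (2 * μ) := by
  classical
  set g : ℤ × ℕ → ℤ := fun p => 2 * p.1 * ((k : ℤ) - p.2) with hg
  have h1 : ∑ h ∈ hh N, ∑ k' ∈ Finset.range K, F (2 * h * ((k : ℤ) - k')) =
      ∑ p ∈ (hh N) ×ˢ Finset.range K, F (g p) := by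
    rw [Finset.sum_product]
  rw [h1, ← Finset.sum_filter_not_add_sum_filter ((hh N) ×ˢ Finset.range K) (fun p => p.2 ≠ k)]
  have hcard : ((hh N).card : ℝ) = 4 * N := by
    unfold hh
    have h0 : (0 : ℤ) ∈ Finset.Icc (-(2 * N : ℤ)) (2 * N) := by
      rw [Finset.mem_Icc]; constructor <;> omega
    have h3 : ((Finset.Icc (-(2 * N : ℤ)) (2 * N)).erase 0).card = 4 * N := by
      rw [Finset.card_erase_of_mem h0, Int.card_Icc]
      omega
    rw [h3]; push_cast; ring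
  apply add_le_add
  · have h2 : ((hh N) ×ˢ Finset.range K).filter (fun p => ¬ p.2 ≠ k) =
        (hh N).image (fun h => ((h, k) : ℤ × ℕ)) := by
      ext p
      simp only [Finset.mem_filter, Finset.mem_product, Finset.mem_range, Finset.mem_image, not_not]
      constructor
      · rintro ⟨⟨h1, h2⟩, h3⟩
        exact ⟨p.1, h1, by rw [← h3]⟩
      · rintro ⟨a, h1, h2⟩
        rw [← h2]
        exact ⟨⟨h1, hk⟩, rfl⟩
    rw [h2, Finset.sum_image (by intro a _ b _ h; exact (Prod.mk.inj h).1)]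
    have h4 : ∀ h ∈ hh N, F (g (h, k)) = F 0 := by
      intro h _
      have : g (h, k) = 0 := by simp [hg]
      rw [this]
    rw [Finset.sum_congr rfl h4, Finset.sum_const, nsmul_eq_mul, hcard]
  · set P := ((hh N) ×ˢ Finset.range K).filter (fun p => p.2 ≠ k) with hP
    have h2 : ∑ p ∈ P, F (g p) = ∑ m ∈ P.image g, ∑ p ∈ P.filter (fun p => g p = m), F (g p) := by
      rw [Finset.sum_fiberwise_of_maps_to]
      intro p hp
      exact Finset.mem_image_of_mem g hp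
    rw [h2]
    calc ∑ m ∈ P.image g, ∑ p ∈ P.filter (fun p => g p = m), F (g p)
        ≤ ∑ m ∈ P.image g, D * F m := by
          apply Finset.sum_le_sum
          intro m hm
          obtain ⟨q, hq, hqm⟩ := Finset.mem_image.mp hm
          have hq1 := Finset.mem_filter.mp hq
          have hq2 := Finset.mem_product.mp hq1.1
          have hq3 := Finset.mem_erase.mp hq2.1
          have hq4 := Finset.mem_Icc.mp hq3.2
          have hq5 := Finset.mem_range.mp hq2.2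
          have hm0 : m ≠ 0 := by
            rw [← hqm]
            refine mul_ne_zero (mul_ne_zero two_ne_zero hq3.1) ?_
            intro h
            apply hq1.2
            omega
          have hmb : m.natAbs ≤ 4 * N * K := by
            rw [← hqm]
            simp only [hg]
            rw [Int.natAbs_mul, Int.natAbs_mul]
            have ha : q.1.natAbs ≤ 2 * N := by omega
            have hb : ((k : ℤ) - q.2).natAbs ≤ K := by omega
            calc (2 : ℤ).natAbs * q.1.natAbs * ((k : ℤ) - q.2).natAbs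
                ≤ 2 * (2 * N) * K := Nat.mul_le_mul (Nat.mul_le_mul (le_refl _) ha) hb
              _ = 4 * N * K := by ring
          have h5 : ∑ p ∈ P.filter (fun p => g p = m), F (g p) =
              ((P.filter (fun p => g p = m)).card : ℝ) * F m := by
            rw [Finset.sum_congr rfl (g := fun _ => F m), Finset.sum_const, nsmul_eq_mul]
            intro p hp
            rw [(Finset.mem_filter.mp hp).2]
          rw [h5]
          apply mul_le_mul_of_nonneg_right _ (hF m)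
          refine le_trans ?_ (hDm m hm0 hmb)
          have h6 : (P.filter (fun p => g p = m)).card ≤ 2 * m.natAbs.divisors.card :=
            dbl_card N K k m
          have h7 : ((P.filter (fun p => g p = m)).card : ℝ) ≤
              ((2 * m.natAbs.divisors.card : ℕ) : ℝ) := Nat.cast_le.mpr h6
          rw [Nat.cast_mul, Nat.cast_ofNat] at h7
          exact h7
      _ = D * ∑ m ∈ P.image g, F m := by rw [Finset.mul_sum]
      _ ≤ D * (2 * μ) := mul_le_mul_of_nonneg_left (hB _) hD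

/-- the sum over `h`, `j`, `k`, `k'` -/
theorem dbl_sum (F : ℤ → ℝ) (hF : ∀ m, 0 ≤ F m) (μ D : ℝ) (hμ : 0 ≤ μ) (hD : 0 ≤ D)
    (hB : ∀ M : Finset ℤ, ∑ m ∈ M, F m ≤ 2 * μ) (N J : ℕ)
    (hDm : ∀ m : ℤ, m ≠ 0 → m.natAbs ≤ 4 * N * 2 ^ J → 2 * (m.natAbs.divisors.card : ℝ) ≤ D) :
    ∑ h ∈ hh N, ∑ j ∈ Finset.range (J + 1), (1 / 2 ^ j : ℝ) *
      ∑ k ∈ Finset.range (2 ^ j), ∑ k' ∈ Finset.range (2 ^ j), F (2 * h * ((k : ℤ) - k')) ≤
      (J + 1) * (4 * N * F 0 + D * (2 * μ)) := by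
  rw [Finset.sum_comm]
  have h1 : ∀ j ∈ Finset.range (J + 1), ∑ h ∈ hh N, (1 / 2 ^ j : ℝ) *
      ∑ k ∈ Finset.range (2 ^ j), ∑ k' ∈ Finset.range (2 ^ j), F (2 * h * ((k : ℤ) - k')) ≤
      4 * N * F 0 + D * (2 * μ) := by
    intro j hj
    rw [← Finset.mul_sum, Finset.sum_comm]
    have hj' : j ≤ J := Nat.lt_succ_iff.mp (Finset.mem_range.mp hj)
    have h2 : ∑ k ∈ Finset.range (2 ^ j), ∑ h ∈ hh N, ∑ k' ∈ Finset.range (2 ^ j),
        F (2 * h * ((k : ℤ) - k')) ≤ ∑ k ∈ Finset.range (2 ^ j), (4 * N * F 0 + D * (2 * μ)) := by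
      apply Finset.sum_le_sum
      intro k hk
      apply dbl_inner F hF μ D hμ hD hB N (2 ^ j) k (Finset.mem_range.mp hk)
      intro m hm hm'
      apply hDm m hm (le_trans hm' _)
      exact Nat.mul_le_mul (le_refl _) (Nat.pow_le_pow_right (by norm_num) hj')
    rw [Finset.sum_const, Finset.card_range, nsmul_eq_mul] at h2
    have h3 : (0 : ℝ) < 2 ^ j := by positivity
    calc (1 / 2 ^ j : ℝ) * _ ≤ (1 / 2 ^ j : ℝ) * (((2 ^ j : ℕ) : ℝ) * (4 * N * F 0 + D * (2 * μ))) :=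
          mul_le_mul_of_nonneg_left h2 (by positivity)
      _ = 4 * N * F 0 + D * (2 * μ) := by push_cast; field_simp
  calc _ ≤ ∑ j ∈ Finset.range (J + 1), (4 * N * F 0 + D * (2 * μ)) := Finset.sum_le_sum h1
    _ = _ := by rw [Finset.sum_const, Finset.card_range, nsmul_eq_mul]; push_cast; ring

/-- the bound for `J` -/
theorem dbl_J (ε : ℝ) (hε : 0 < ε) : ∃ C : ℝ, 0 < C ∧ ∀ N J : ℕ, 1 ≤ N → 2 ^ J ≤ 4 * N + 2 →
    ((J : ℝ) + 1) ≤ C * (N : ℝ) ^ ε := by
  refine ⟨6 ^ ε / (ε * Real.log 2) + 1, by positivity, ?_⟩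
  intro N J hN hJ
  have hl2 : 0 < Real.log 2 := Real.log_pos (by norm_num)
  have hN1 : (1 : ℝ) ≤ N := by exact_mod_cast hN
  have h1 : (2 : ℝ) ^ J ≤ 6 * N := by
    have : ((2 ^ J : ℕ) : ℝ) ≤ ((4 * N + 2 : ℕ) : ℝ) := by exact_mod_cast hJ
    push_cast at this
    linarith
  have h2 : (J : ℝ) * Real.log 2 ≤ (6 * N : ℝ) ^ ε / ε := by
    calc (J : ℝ) * Real.log 2 = Real.log (2 ^ J) := by rw [Real.log_pow]
      _ ≤ Real.log (6 * N) := Real.log_le_log (by positivity) h1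
      _ ≤ _ := Real.log_le_rpow_div (by positivity) hε
  have h3 : (6 * N : ℝ) ^ ε = 6 ^ ε * (N : ℝ) ^ ε := Real.mul_rpow (by norm_num) (by positivity)
  have h4 : (J : ℝ) ≤ 6 ^ ε / (ε * Real.log 2) * (N : ℝ) ^ ε := by
    rw [h3] at h2
    have h5 : (J : ℝ) ≤ (6 ^ ε * (N : ℝ) ^ ε / ε) / Real.log 2 := by
      rw [le_div_iff₀ hl2]; exact h2
    calc (J : ℝ) ≤ (6 ^ ε * (N : ℝ) ^ ε / ε) / Real.log 2 := h5
      _ = _ := by field_simp
  have h6 : (1 : ℝ) ≤ (N : ℝ) ^ ε := Real.one_le_rpow hN1 hε.le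
  calc (J : ℝ) + 1 ≤ 6 ^ ε / (ε * Real.log 2) * (N : ℝ) ^ ε + (N : ℝ) ^ ε := add_le_add h4 h6
    _ = _ := by ring

theorem thm_DBL (hBES : St_BES) (hDIV : St_DIV) : St_DBL := by
  intro ε hε
  obtain ⟨C₁, hC₁, hD₁⟩ := hDIV (ε / 4) (by positivity)
  obtain ⟨C₂, hC₂, hJ₂⟩ := dbl_J (ε / 2) (by positivity)
  set A : ℝ := C₁ * (24 : ℝ) ^ (ε / 4) with hA
  have hA0 : 0 < A := by positivity
  refine ⟨C₂ * (4 + 4 * A), by positivity, ?_⟩
  intro N J hN hJ E hE hE1
  have hN1 : (1 : ℝ) ≤ N := by exact_mod_cast hN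
  set μ : ℝ := (volume E).toReal with hμ
  have hμ0 : 0 ≤ μ := ENNReal.toReal_nonneg
  set F : ℤ → ℝ := fun m => ‖∫ x in E, ee ((m : ℝ) * x)‖ ^ 2 with hFdef
  have hF0 : F 0 = μ ^ 2 := by
    simp only [hFdef]
    have h0 : ∀ x : ℝ, ee (((0 : ℤ) : ℝ) * x) = 1 := by
      intro x
      simp [ee]
    simp only [h0]
    rw [MeasureTheory.setIntegral_const]
    simp [hμ, MeasureTheory.measureReal_def]
  have hNe : (1 : ℝ) ≤ (N : ℝ) ^ (ε / 2) := Real.one_le_rpow hN1 (by positivity)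
  have hmain := dbl_sum F (fun m => by positivity) μ (2 * (A * (N : ℝ) ^ (ε / 2))) hμ0
    (by positivity) (fun M => hBES E hE hE1 M) N J ?_
  · refine le_trans hmain ?_
    rw [hF0]
    have h1 := hJ₂ N J hN hJ
    have h2 : 4 * (N : ℝ) * μ ^ 2 + 2 * (A * (N : ℝ) ^ (ε / 2)) * (2 * μ) ≤
        (4 + 4 * A) * (N : ℝ) ^ (ε / 2) * (N * μ ^ 2 + μ) := by
      have h3 : 0 ≤ (N : ℝ) * μ ^ 2 := by positivity
      have h4 : (N : ℝ) * μ ^ 2 ≤ (N : ℝ) ^ (ε / 2) * ((N : ℝ) * μ ^ 2) := by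
        nlinarith
      have h5 : 0 ≤ A * ((N : ℝ) ^ (ε / 2) * ((N : ℝ) * μ ^ 2)) := by positivity
      have h6 : 0 ≤ (N : ℝ) ^ (ε / 2) * μ := by positivity
      nlinarith
    calc ((J : ℝ) + 1) * (4 * N * μ ^ 2 + 2 * (A * (N : ℝ) ^ (ε / 2)) * (2 * μ))
        ≤ (C₂ * (N : ℝ) ^ (ε / 2)) * ((4 + 4 * A) * (N : ℝ) ^ (ε / 2) * (N * μ ^ 2 + μ)) :=
          mul_le_mul h1 h2 (by positivity) (by positivity)
      _ = C₂ * (4 + 4 * A) * ((N : ℝ) ^ (ε / 2) * (N : ℝ) ^ (ε / 2)) * (N * μ ^ 2 + μ) := by ring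
      _ = C₂ * (4 + 4 * A) * (N : ℝ) ^ ε * (N * μ ^ 2 + μ) := by
          rw [← Real.rpow_add (by linarith)]
          norm_num
  · intro m hm hmb
    have hm1 : 1 ≤ m.natAbs := Nat.one_le_iff_ne_zero.mpr (Int.natAbs_ne_zero.mpr hm)
    have h1 := hD₁ m.natAbs hm1
    have h2 : (m.natAbs : ℝ) ≤ 24 * (N : ℝ) ^ 2 := by
      have h3 : m.natAbs ≤ 4 * N * (4 * N + 2) := le_trans hmb (Nat.mul_le_mul (le_refl _) hJ)
      have h4 : 4 * N * (4 * N + 2) ≤ 24 * N ^ 2 := by nlinarith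
      exact_mod_cast le_trans h3 h4
    have h5 : ((m.natAbs : ℝ)) ^ (ε / 4) ≤ (24 : ℝ) ^ (ε / 4) * (N : ℝ) ^ (ε / 2) := by
      calc ((m.natAbs : ℝ)) ^ (ε / 4) ≤ (24 * (N : ℝ) ^ 2) ^ (ε / 4) :=
            Real.rpow_le_rpow (by positivity) h2 (by positivity)
        _ = (24 : ℝ) ^ (ε / 4) * ((N : ℝ) ^ 2) ^ (ε / 4) :=
            Real.mul_rpow (by norm_num) (by positivity)
        _ = _ := by
            rw [← Real.rpow_natCast, ← Real.rpow_mul (by positivity)]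
            congr 2
            push_cast
            ring
    calc 2 * (m.natAbs.divisors.card : ℝ) ≤ 2 * (C₁ * ((m.natAbs : ℝ)) ^ (ε / 4)) := by linarith
      _ ≤ 2 * (C₁ * ((24 : ℝ) ^ (ε / 4) * (N : ℝ) ^ (ε / 2))) := by
          have := mul_le_mul_of_nonneg_left h5 hC₁.le
          linarith
      _ = 2 * (A * (N : ℝ) ^ (ε / 2)) := by rw [hA]; ring

end Pool.Agent.LVS
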