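import Pool.Agent.LVS.St

/-!
# LVS DIV: the divisor bound (the proof is a copy of QES/Dv)
-/

set_option autoImplicit false

namespace Pool.Agent.LVS

section

open Finset


/-- divisor bound -/
theorem div_card (ε : ℝ) (hε : 0 < ε) :
    ∃ C : ℝ, 0 < C ∧ ∀ m : ℕ, 1 ≤ m → (m.divisors.card : ℝ) ≤ C * (m : ℝ) ^ ε := by
  obtain ⟨P, hP⟩ : ∃ P : ℕ, (2 : ℝ) ^ (1 / ε) ≤ P := exists_nat_ge _
  have hl2 : 0 < Real.log 2 := Real.log_pos (by norm_num)
  set M : ℝ := 1 + 1 / (ε * Real.log 2) with hM
  have hM1 : 1 ≤ M := by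
    rw [hM]
    have : 0 < 1 / (ε * Real.log 2) := by positivity
    linarith
  have hM0 : 0 ≤ M := by linarith
  have hMe : 1 ≤ M * (ε * Real.log 2) := by
    rw [hM, add_mul, one_div_mul_cancel (by positivity)]
    have : 0 < ε * Real.log 2 := by positivity
    linarith
  refine ⟨M ^ (P + 1), by positivity, ?_⟩
  intro m hm
  have hm0 : m ≠ 0 := by omega
  rw [Nat.card_divisors hm0]
  push_cast
  have h2 : ∏ p ∈ m.primeFactors, ((m.factorization p : ℝ) + 1) ≤
      ∏ p ∈ m.primeFactors, ((if p ≤ P then M else 1) *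
        ((p : ℝ) ^ m.factorization p) ^ ε) := by
    refine prod_le_prod (fun _ _ => by positivity) ?_
    intro p hp
    have hp2 : (2 : ℝ) ≤ p := by
      exact_mod_cast (Nat.prime_of_mem_primeFactors hp).two_le
    have hp0 : (0 : ℝ) ≤ p := by linarith
    set a := m.factorization p with ha
    have e1 : ((p : ℝ) ^ a) ^ ε = ((p : ℝ) ^ ε) ^ a := by
      rw [← Real.rpow_natCast, ← Real.rpow_natCast, ← Real.rpow_mul hp0, ← Real.rpow_mul hp0,
        mul_comm]
    by_cases h : p ≤ P
    · rw [if_pos h]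
      have e2 : (2 : ℝ) ^ (ε * a) ≤ ((p : ℝ) ^ a) ^ ε := by
        rw [e1, ← Real.rpow_natCast, ← Real.rpow_mul hp0]
        exact Real.rpow_le_rpow (by norm_num) hp2 (by positivity)
      have e3 : 1 + ε * a * Real.log 2 ≤ (2 : ℝ) ^ (ε * a) := by
        rw [Real.rpow_def_of_pos (by norm_num)]
        have := Real.add_one_le_exp (Real.log 2 * (ε * a))
        nlinarith
      have e4 : (a : ℝ) + 1 ≤ M * (1 + ε * a * Real.log 2) := by
        have ha0 : (0 : ℝ) ≤ a := Nat.cast_nonneg a
        have : (a : ℝ) ≤ M * (ε * Real.log 2) * a := le_mul_of_one_le_left ha0 hMe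
        nlinarith
      exact e4.trans (mul_le_mul_of_nonneg_left (e3.trans e2) hM0)
    · rw [if_neg h, one_mul]
      have h3 : (2 : ℝ) ^ (1 / ε) ≤ p := by
        refine hP.trans ?_
        exact_mod_cast (not_le.1 h).le
      have h4 := Real.rpow_le_rpow (by positivity) h3 hε.le
      rw [← Real.rpow_mul (by norm_num), one_div_mul_cancel hε.ne', Real.rpow_one] at h4
      rw [e1]
      have h5 : (2 : ℝ) ^ a ≤ ((p : ℝ) ^ ε) ^ a := pow_le_pow_left₀ (by norm_num) h4 a
      have h6 : (a : ℝ) + 1 ≤ (2 : ℝ) ^ a := by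
        have := Nat.lt_two_pow_self (n := a)
        exact_mod_cast this
      exact h6.trans h5
  rw [prod_mul_distrib] at h2
  have h5 : ∏ p ∈ m.primeFactors, (if p ≤ P then M else 1) ≤ M ^ (P + 1) := by
    rw [← prod_filter, prod_const]
    refine pow_le_pow_right₀ hM1 ?_
    have h6 : (m.primeFactors.filter (fun p => p ≤ P)) ⊆ range (P + 1) := by
      intro p hp
      rw [mem_filter] at hp
      rw [mem_range]
      omega
    have := card_le_card h6
    rwa [card_range] at this
  have h7 : ∏ p ∈ m.primeFactors, ((p : ℝ) ^ m.factorization p) ^ ε = (m : ℝ) ^ ε := by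
    rw [Real.finsetProd_rpow _ _ (fun p _ => by positivity)]
    congr 1
    have h8 := Nat.prod_factorization_pow_eq_self hm0
    rw [Finsupp.prod, Nat.support_factorization] at h8
    have h9 : ((∏ p ∈ m.primeFactors, p ^ m.factorization p : ℕ) : ℝ) = (m : ℝ) := by
      rw [h8]
    rw [← h9]
    push_cast
    rfl
  rw [h7] at h2
  exact h2.trans (mul_le_mul_of_nonneg_right h5 (by positivity))

end

theorem thm_DIV : St_DIV := fun ε hε => div_card ε hε

end Pool.Agent.LVS
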