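import Pool.Agent.LVS.St

set_option autoImplicit false

/-!
# LVS: duality
-/

open MeasureTheory Set

namespace Pool.Agent.LVS

namespace DualAux

theorem ee_cont : Continuous ee := by
  unfold ee
  fun_prop

theorem ee_norm (t : ℝ) : ‖ee t‖ = 1 := by
  unfold ee
  have : (2 * Real.pi * t * Complex.I : ℂ) = ((2 * Real.pi * t : ℝ) : ℂ) * Complex.I := by
    push_cast
    ring
  rw [this, Complex.norm_exp_ofReal_mul_I]

theorem ee_conj (t : ℝ) : (starRingEnd ℂ) (ee t) = ee (-t) := by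
  unfold ee
  have h1 : (2 * Real.pi * t * Complex.I : ℂ) = ((2 * Real.pi * t : ℝ) : ℂ) * Complex.I := by
    push_cast
    ring
  rw [h1, ← Complex.exp_conj]
  congr 1
  rw [map_mul, Complex.conj_ofReal, Complex.conj_I]
  push_cast
  ring

theorem ee_mul_conj (s t : ℝ) : ee s * (starRingEnd ℂ) (ee t) = ee (s - t) := by
  rw [ee_conj]
  unfold ee
  rw [← Complex.exp_add]
  congr 1
  push_cast
  ring

end DualAux

open DualAux in
theorem thm_DUAL : St_DUAL := by
  intro N a φ hφ E hE hE1 l hl hn hbig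
  set ν : Measure ℝ := volume.restrict E with hν
  have hfin : volume E < ⊤ := (measure_mono hE1).trans_lt (by simp)
  have : IsFiniteMeasure ν := ⟨by rw [hν, Measure.restrict_apply_univ]; exact hfin⟩
  set e : ℤ → ℝ → ℂ := fun n x => ee (n * φ x + n ^ 2 * x) with he
  have hem : ∀ n, Measurable (e n) := fun n =>
    ee_cont.measurable.comp ((hφ.const_mul _).add (measurable_id.const_mul _))
  have hen : ∀ n x, ‖e n x‖ = 1 := fun n x => ee_norm _
  set S : ℝ → ℂ := SN N a φ with hS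
  have hSe : ∀ x, S x = ∑ n ∈ Finset.Icc (-(N : ℤ)) N, a n * e n x := fun x => rfl
  have hSm : Measurable S := by
    have : S = fun x => ∑ n ∈ Finset.Icc (-(N : ℤ)) N, a n * e n x := funext hSe
    rw [this]
    exact Finset.measurable_sum _ fun n _ => (hem n).const_mul _
  set c : ℝ → ℂ := fun x => (starRingEnd ℂ) (S x) / ‖S x‖ with hc
  have hcm : Measurable c := by
    refine Measurable.div ?_ ?_
    · exact Complex.continuous_conj.measurable.comp hSm
    · exact Complex.measurable_ofReal.comp hSm.norm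
  have hc1 : ∀ x, ‖c x‖ ≤ 1 := by
    intro x
    show ‖(starRingEnd ℂ) (S x) / (‖S x‖ : ℂ)‖ ≤ 1
    rw [norm_div, RCLike.norm_conj, Complex.norm_real, norm_norm]
    exact div_self_le_one _
  have hcS : ∀ x, c x * S x = ((‖S x‖ : ℝ) : ℂ) := by
    intro x
    show (starRingEnd ℂ) (S x) / (‖S x‖ : ℂ) * S x = _
    rcases eq_or_ne (S x) 0 with h | h
    · rw [h]; simp
    · have h' : ((‖S x‖ : ℝ) : ℂ) ≠ 0 := by
        rw [Ne, Complex.ofReal_eq_zero, norm_eq_zero]
        exact h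
      rw [div_mul_eq_mul_div, div_eq_iff h', mul_comm, Complex.mul_conj, Complex.normSq_eq_norm_sq]
      push_cast
      ring
  have hce : ∀ n, Integrable (fun x => c x * e n x) ν := by
    intro n
    refine Integrable.of_bound (hcm.mul (hem n)).aestronglyMeasurable 1
      (Filter.Eventually.of_forall fun x => ?_)
    rw [norm_mul, hen, mul_one]
    exact hc1 x
  set b : ℤ → ℂ := fun n => ∫ x, c x * e n x ∂ν with hb
  -- the first inequality
  have h1 : ((∫ x, ‖S x‖ ∂ν : ℝ) : ℂ) = ∑ n ∈ Finset.Icc (-(N : ℤ)) N, a n * b n := by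
    rw [← integral_complex_ofReal]
    have e1 : ∀ x, ((‖S x‖ : ℝ) : ℂ) =
        ∑ n ∈ Finset.Icc (-(N : ℤ)) N, a n * (c x * e n x) := by
      intro x
      rw [← hcS, hSe, Finset.mul_sum]
      exact Finset.sum_congr rfl fun n _ => by ring
    simp only [e1]
    rw [integral_finsetSum _ fun n _ => (hce n).const_mul _]
    exact Finset.sum_congr rfl fun n _ => integral_const_mul _ _
  have hSb : ∀ x, ‖S x‖ ≤ ∑ n ∈ Finset.Icc (-(N : ℤ)) N, ‖a n‖ := by
    intro x
    rw [hSe]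
    refine (norm_sum_le _ _).trans (Finset.sum_le_sum fun n _ => ?_)
    rw [norm_mul, hen, mul_one]
  have hSi : Integrable (fun x => ‖S x‖) ν := by
    refine Integrable.of_bound hSm.norm.aestronglyMeasurable
      (∑ n ∈ Finset.Icc (-(N : ℤ)) N, ‖a n‖) (Filter.Eventually.of_forall fun x => ?_)
    rw [norm_norm]
    exact hSb x
  have h2 : l * nrm N a * (volume E).toReal ≤ ∫ x, ‖S x‖ ∂ν := by
    have e1 : ∫ _x, l * nrm N a ∂ν = l * nrm N a * (volume E).toReal := by
      rw [integral_const, hν, smul_eq_mul, measureReal_restrict_apply_univ, Measure.real, mul_comm]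
    rw [← e1]
    refine integral_mono_ae (integrable_const _) hSi ?_
    rw [hν]
    exact (ae_restrict_mem hE).mono fun x hx => hbig x hx
  have h3 : ‖∑ n ∈ Finset.Icc (-(N : ℤ)) N, a n * b n‖ ≤
      nrm N a * Real.sqrt (∑ n ∈ Finset.Icc (-(N : ℤ)) N, ‖b n‖ ^ 2) := by
    refine (norm_sum_le _ _).trans ?_
    simp only [norm_mul]
    exact Real.sum_mul_le_sqrt_mul_sqrt _ _ _
  have hμ0 : 0 ≤ (volume E).toReal := ENNReal.toReal_nonneg
  have h4 : l * (volume E).toReal ≤
      Real.sqrt (∑ n ∈ Finset.Icc (-(N : ℤ)) N, ‖b n‖ ^ 2) := by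
    have e1 : ∫ x, ‖S x‖ ∂ν = ‖∑ n ∈ Finset.Icc (-(N : ℤ)) N, a n * b n‖ := by
      rw [← h1, Complex.norm_real, Real.norm_eq_abs, abs_of_nonneg]
      exact integral_nonneg fun x => norm_nonneg _
    rw [e1] at h2
    have e2 := h2.trans h3
    have e3 : nrm N a * (l * (volume E).toReal) ≤
        nrm N a * Real.sqrt (∑ n ∈ Finset.Icc (-(N : ℤ)) N, ‖b n‖ ^ 2) := by linarith
    exact le_of_mul_le_mul_left e3 hn
  have h5 : l ^ 2 * (volume E).toReal ^ 2 ≤ ∑ n ∈ Finset.Icc (-(N : ℤ)) N, ‖b n‖ ^ 2 := by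
    have e1 : (l * (volume E).toReal) ^ 2 ≤
        Real.sqrt (∑ n ∈ Finset.Icc (-(N : ℤ)) N, ‖b n‖ ^ 2) ^ 2 :=
      pow_le_pow_left₀ (mul_nonneg hl hμ0) h4 2
    rw [Real.sq_sqrt (Finset.sum_nonneg fun n _ => by positivity)] at e1
    linarith [mul_pow l (volume E).toReal 2]
  -- the second inequality
  have hprod : (volume : Measure (ℝ × ℝ)).restrict (E ×ˢ E) = ν.prod ν := by
    rw [hν, Measure.prod_restrict, Measure.volume_eq_prod]
  rw [hprod]
  refine h5.trans ?_
  have hterm : ∀ n, ((‖b n‖ ^ 2 : ℝ) : ℂ) =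
      ∫ z : ℝ × ℝ, (c z.1 * e n z.1) * (starRingEnd ℂ) (c z.2 * e n z.2) ∂(ν.prod ν) := by
    intro n
    rw [integral_prod_mul (fun x => c x * e n x) (fun x => (starRingEnd ℂ) (c x * e n x)),
      integral_conj]
    show _ = b n * (starRingEnd ℂ) (b n)
    rw [Complex.mul_conj, Complex.normSq_eq_norm_sq]
  have hpt : ∀ z : ℝ × ℝ, ∑ n ∈ Finset.Icc (-(N : ℤ)) N,
      (c z.1 * e n z.1) * (starRingEnd ℂ) (c z.2 * e n z.2) =
      c z.1 * (starRingEnd ℂ) (c z.2) * KK N (φ z.1 - φ z.2) (z.1 - z.2) := by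
    intro z
    unfold KK
    rw [Finset.mul_sum]
    refine Finset.sum_congr rfl fun n _ => ?_
    rw [map_mul]
    have e1 : e n z.1 * (starRingEnd ℂ) (e n z.2) =
        ee (n * (φ z.1 - φ z.2) + n ^ 2 * (z.1 - z.2)) := by
      rw [he]
      show ee _ * (starRingEnd ℂ) (ee _) = _
      rw [ee_mul_conj]
      congr 1
      ring
    rw [← e1]
    ring
  have hint : ∀ n, Integrable (fun z : ℝ × ℝ =>
      (c z.1 * e n z.1) * (starRingEnd ℂ) (c z.2 * e n z.2)) (ν.prod ν) := by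
    intro n
    refine Integrable.of_bound ?_ 1 (Filter.Eventually.of_forall fun z => ?_)
    · refine Measurable.aestronglyMeasurable ?_
      refine Measurable.mul ?_ ?_
      · exact (hcm.mul (hem n)).comp measurable_fst
      · exact Complex.continuous_conj.measurable.comp ((hcm.mul (hem n)).comp measurable_snd)
    · rw [norm_mul, RCLike.norm_conj, norm_mul, norm_mul, hen, hen, mul_one, mul_one]
      exact mul_le_one₀ (hc1 _) (norm_nonneg _) (hc1 _)
  have hKm : Measurable (fun z : ℝ × ℝ => KK N (φ z.1 - φ z.2) (z.1 - z.2)) := by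
    unfold KK
    refine Finset.measurable_sum _ fun n _ => ee_cont.measurable.comp ?_
    exact (((hφ.comp measurable_fst).sub (hφ.comp measurable_snd)).const_mul _).add
      ((measurable_fst.sub measurable_snd).const_mul _)
  have hKi : Integrable (fun z : ℝ × ℝ => ‖KK N (φ z.1 - φ z.2) (z.1 - z.2)‖) (ν.prod ν) := by
    refine Integrable.of_bound hKm.norm.aestronglyMeasurable
      ((Finset.Icc (-(N : ℤ)) N).card : ℝ) (Filter.Eventually.of_forall fun z => ?_)
    rw [norm_norm]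
    unfold KK
    refine (norm_sum_le _ _).trans ?_
    simp [ee_norm]
  have hfinal : ∑ n ∈ Finset.Icc (-(N : ℤ)) N, ‖b n‖ ^ 2 =
      ‖∫ z : ℝ × ℝ, c z.1 * (starRingEnd ℂ) (c z.2) * KK N (φ z.1 - φ z.2) (z.1 - z.2)
        ∂(ν.prod ν)‖ := by
    have e1 : ∫ z : ℝ × ℝ, c z.1 * (starRingEnd ℂ) (c z.2) * KK N (φ z.1 - φ z.2) (z.1 - z.2)
        ∂(ν.prod ν) = ((∑ n ∈ Finset.Icc (-(N : ℤ)) N, ‖b n‖ ^ 2 : ℝ) : ℂ) := by
      simp only [← hpt]
      rw [integral_finsetSum _ fun n _ => hint n, Complex.ofReal_sum]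
      exact Finset.sum_congr rfl fun n _ => (hterm n).symm
    rw [e1, Complex.norm_real, Real.norm_eq_abs, abs_of_nonneg]
    exact Finset.sum_nonneg fun n _ => by positivity
  rw [hfinal]
  refine (norm_integral_le_integral_norm _).trans ?_
  refine integral_mono_of_nonneg (Filter.Eventually.of_forall fun z => norm_nonneg _) hKi
    (Filter.Eventually.of_forall fun z => ?_)
  show ‖c z.1 * (starRingEnd ℂ) (c z.2) * KK N (φ z.1 - φ z.2) (z.1 - z.2)‖ ≤
    ‖KK N (φ z.1 - φ z.2) (z.1 - z.2)‖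
  rw [norm_mul, norm_mul, RCLike.norm_conj]
  refine mul_le_of_le_one_left (norm_nonneg _) ?_
  exact mul_le_one₀ (hc1 _) (norm_nonneg _) (hc1 _)

end Pool.Agent.LVS
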