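import Pool.Agent.LVS.St

/-!
# LVS, module FIN: the dyadic levels
-/

set_option autoImplicit false

open MeasureTheory Set

namespace Pool.Agent.LVS

theorem measurable_SN (N : ℕ) (a : ℤ → ℂ) {φ : ℝ → ℝ} (hφ : Measurable φ) :
    Measurable (SN N a φ) := by
  unfold SN
  refine Finset.measurable_sum _ fun n _ => ?_
  refine Measurable.const_mul ?_ _
  unfold ee
  fun_prop

theorem fin_norm_ee (t : ℝ) : ‖ee t‖ = 1 := by
  unfold ee
  rw [show (2 * Real.pi * t * Complex.I : ℂ) = ((2 * Real.pi * t : ℝ) : ℂ) * Complex.I by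
    push_cast; ring]
  exact Complex.norm_exp_ofReal_mul_I _

theorem nrm_sq (N : ℕ) (a : ℤ → ℂ) : nrm N a ^ 2 = ∑ n ∈ Finset.Icc (-(N : ℤ)) N, ‖a n‖ ^ 2 := by
  unfold nrm
  exact Real.sq_sqrt (Finset.sum_nonneg fun n _ => by positivity)

theorem norm_SN_le (N : ℕ) (a : ℤ → ℂ) (φ : ℝ → ℝ) (x : ℝ) :
    ‖SN N a φ x‖ ≤ (2 * N + 1) * nrm N a := by
  have h1 : ‖SN N a φ x‖ ≤ ∑ n ∈ Finset.Icc (-(N : ℤ)) N, ‖a n‖ := by
    unfold SN
    refine (norm_sum_le _ _).trans (Finset.sum_le_sum fun n _ => ?_)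
    rw [norm_mul, fin_norm_ee, mul_one]
  have h2 : (∑ n ∈ Finset.Icc (-(N : ℤ)) N, ‖a n‖) ^ 2 ≤ (2 * N + 1) * nrm N a ^ 2 := by
    rw [nrm_sq]
    have h3 := sq_sum_le_card_mul_sum_sq (s := Finset.Icc (-(N : ℤ)) N) (f := fun n => ‖a n‖)
    rw [Int.card_Icc] at h3
    have h4 : (((N : ℤ) + 1 - -(N : ℤ)).toNat : ℝ) = 2 * N + 1 := by
      have : ((N : ℤ) + 1 - -(N : ℤ)).toNat = 2 * N + 1 := by omega
      rw [this]
      push_cast
      ring
    rw [h4] at h3
    exact h3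
  have h5 : 0 ≤ nrm N a := Real.sqrt_nonneg _
  have h6 : (0 : ℝ) ≤ N := Nat.cast_nonneg _
  refine h1.trans (abs_le_of_sq_le_sq' ?_ (by positivity)).2
  refine h2.trans ?_
  rw [mul_pow]
  refine mul_le_mul_of_nonneg_right ?_ (by positivity)
  nlinarith

theorem SN_zero {N : ℕ} {a : ℤ → ℂ} (h : nrm N a = 0) (φ : ℝ → ℝ) (x : ℝ) : SN N a φ x = 0 := by
  have h1 := norm_SN_le N a φ x
  rw [h, mul_zero] at h1
  exact norm_le_zero_iff.1 h1

/-- **MODULE FIN** -/
theorem thm_FIN (hLV : St_LV) : St_FIN := by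
  intro ε hε
  obtain ⟨C₀, hC₀, hlv⟩ := hLV (ε / 2) (by linarith)
  have hε2 : 0 < ε / 2 := by linarith
  -- the number of levels
  obtain ⟨C₁, hC₁, hK⟩ : ∃ C₁ : ℝ, 0 < C₁ ∧ ∀ N : ℕ, 1 ≤ N →
      ((Nat.log 2 (2 * N + 1) + 1 : ℕ) : ℝ) ≤ C₁ * (N : ℝ) ^ (ε / 2) := by
    refine ⟨1 + 3 ^ (ε / 2) / (ε / 2) / Real.log 2, ?_, fun N hN => ?_⟩
    · have := Real.log_pos (by norm_num : (1 : ℝ) < 2)
      positivity
    · have hN1 : (1 : ℝ) ≤ N := by exact_mod_cast hN
      have h1 : ((Nat.log 2 (2 * N + 1) : ℕ) : ℝ) ≤ Real.logb 2 ((2 * N + 1 : ℕ) : ℝ) := by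
        have := Real.natLog_le_logb (2 * N + 1) 2
        exact_mod_cast this
      have hl2 := Real.log_pos (by norm_num : (1 : ℝ) < 2)
      have h2 : Real.log ((2 * N + 1 : ℕ) : ℝ) ≤ (3 * (N : ℝ)) ^ (ε / 2) / (ε / 2) := by
        refine (Real.log_le_log (by positivity) ?_).trans
          (Real.log_le_rpow_div (by positivity) hε2)
        push_cast
        linarith
      have h3 : (1 : ℝ) ≤ (N : ℝ) ^ (ε / 2) := Real.one_le_rpow hN1 hε2.le
      rw [Real.mul_rpow (by norm_num) (by positivity)] at h2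
      push_cast
      calc ((Nat.log 2 (2 * N + 1) : ℕ) : ℝ) + 1
          ≤ Real.log ((2 * N + 1 : ℕ) : ℝ) / Real.log 2 + 1 := by
            have := h1
            rw [Real.logb] at this
            linarith
        _ ≤ (3 ^ (ε / 2) * (N : ℝ) ^ (ε / 2) / (ε / 2)) / Real.log 2 + (N : ℝ) ^ (ε / 2) := by
            gcongr
        _ = _ := by ring
  refine ⟨C₀ + 1 + 16 * C₀ * C₁, by positivity, fun φ hφ N hN a => ?_⟩
  obtain ⟨C, hC⟩ : ∃ C, C = C₀ + 1 + 16 * C₀ * C₁ := ⟨_, rfl⟩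
  rw [← hC]
  have hC1 : 1 ≤ C := by
    rw [hC]
    have : 0 < C₀ * C₁ := mul_pos hC₀ hC₁
    nlinarith
  have hCC : C₀ ≤ C := by
    rw [hC]
    have : 0 < C₀ * C₁ := mul_pos hC₀ hC₁
    nlinarith
  have hC16 : 16 * C₀ * C₁ ≤ C := by
    rw [hC]
    linarith
  have hN1 : (1 : ℝ) ≤ N := by exact_mod_cast hN
  have hN0 : (0 : ℝ) < N := by linarith
  obtain ⟨A, hA⟩ : ∃ A, A = nrm N a := ⟨_, rfl⟩
  rw [← hA]
  have hA0 : 0 ≤ A := by
    rw [hA]
    exact Real.sqrt_nonneg _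
  rcases hA0.eq_or_lt with hz | hpos
  · -- `a = 0`
    have h0 : nrm N a = 0 := by rw [← hA, ← hz]
    simp only [SN_zero h0]
    rw [← hz]
    simp
  · obtain ⟨L, hL⟩ : ∃ L, L = C * (N : ℝ) ^ (1 / 4 + ε) := ⟨_, rfl⟩
    rw [← hL]
    have hL1 : 1 ≤ L := by
      rw [hL]
      have : (1 : ℝ) ≤ (N : ℝ) ^ (1 / 4 + ε) := Real.one_le_rpow hN1 (by positivity)
      nlinarith
    have hL2 : C₀ * (N : ℝ) ^ (1 / 4 + ε / 2) ≤ L := by
      rw [hL]
      have h1 : (N : ℝ) ^ (1 / 4 + ε / 2) ≤ (N : ℝ) ^ (1 / 4 + ε) :=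
        Real.rpow_le_rpow_of_exponent_le hN1 (by linarith)
      gcongr
    obtain ⟨K, hKd⟩ : ∃ K, K = Nat.log 2 (2 * N + 1) + 1 := ⟨_, rfl⟩
    have hKN := hK N hN
    rw [← hKd] at hKN
    have hpow : ((2 * N + 1 : ℕ) : ℝ) < 2 ^ K := by
      have : 2 * N + 1 < 2 ^ K := by
        rw [hKd]
        exact Nat.lt_pow_succ_log_self (by norm_num) _
      exact_mod_cast this
    have hmS : Measurable fun x => ‖SN N a φ x‖ := (measurable_SN N a hφ).norm
    obtain ⟨F, hF⟩ : ∃ F : ℕ → Set ℝ, ∀ i, F i =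
        {x | x ∈ Icc (-1 : ℝ) 1 ∧ 2 ^ i * L * A ≤ ‖SN N a φ x‖} := ⟨_, fun _ => rfl⟩
    have hFm : ∀ i, MeasurableSet (F i) := by
      intro i
      rw [hF]
      exact measurableSet_Icc.inter (measurableSet_le measurable_const hmS)
    have hFv : ∀ i, (volume (F i)).toReal ≤ C₀ * (N : ℝ) ^ (ε / 2) * (2 ^ i * L)⁻¹ ^ 4 := by
      intro i
      rw [hF, hA]
      refine hlv N hN a φ hφ (by rw [← hA]; exact hpos) (2 ^ i * L) (hL2.trans ?_)
      have : (1 : ℝ) ≤ 2 ^ i := one_le_pow₀ (by norm_num)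
      nlinarith
    have hFf : ∀ i, volume (F i) ≠ ⊤ := by
      intro i
      refine ne_top_of_le_ne_top ?_ (measure_mono (show F i ⊆ Icc (-1 : ℝ) 1 from ?_))
      · rw [Real.volume_Icc]
        exact ENNReal.ofReal_ne_top
      · rw [hF]
        exact fun x hx => hx.1
    obtain ⟨E, hE⟩ : ∃ E : Set ℝ, E = {x | x ∈ Icc (-1 : ℝ) 1 ∧ L * A ≤ ‖SN N a φ x‖} := ⟨_, rfl⟩
    rw [← hE]
    have hEm : MeasurableSet E := by
      rw [hE]
      exact measurableSet_Icc.inter (measurableSet_le measurable_const hmS)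
    rw [← integral_indicator hEm]
    have hLA : 0 < L * A := mul_pos (by linarith) hpos
    have hpt : ∀ x, E.indicator (fun x => ‖SN N a φ x‖ ^ 4) x ≤
        ∑ i ∈ Finset.range K, (F i).indicator (fun _ => (2 ^ (i + 1) * L * A) ^ 4) x := by
      intro x
      have hnn : ∀ i ∈ Finset.range K,
          0 ≤ (F i).indicator (fun _ => (2 ^ (i + 1) * L * A) ^ 4) x := fun i _ =>
        Set.indicator_nonneg (fun _ _ => by positivity) x
      by_cases hx : x ∈ E
      · rw [Set.indicator_of_mem hx]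
        have hx' := hx
        rw [hE] at hx'
        obtain ⟨hx1, hx2⟩ := hx'
        obtain ⟨j, hj1, hj2⟩ := exists_nat_pow_near
          (show 1 ≤ ‖SN N a φ x‖ / (L * A) from (one_le_div hLA).2 hx2) (by norm_num : (1 : ℝ) < 2)
        rw [le_div_iff₀ hLA] at hj1
        rw [div_lt_iff₀ hLA] at hj2
        have hjK : j < K := by
          by_contra hcon
          have h1 : (2 : ℝ) ^ K ≤ 2 ^ j := pow_le_pow_right₀ (by norm_num) (not_lt.1 hcon)
          have h2 := norm_SN_le N a φ x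
          rw [← hA] at h2
          have h3 : ((2 * N + 1 : ℕ) : ℝ) * A < 2 ^ K * A := mul_lt_mul_of_pos_right hpow hpos
          have h4 : (2 : ℝ) ^ K * A ≤ 2 ^ j * (L * A) := by
            calc (2 : ℝ) ^ K * A ≤ 2 ^ j * A := by gcongr
              _ ≤ 2 ^ j * (L * A) := by
                gcongr
                nlinarith
          push_cast at h3
          linarith
        have hxj : x ∈ F j := by
          rw [hF]
          exact ⟨hx1, by rw [mul_assoc]; exact hj1⟩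
        calc ‖SN N a φ x‖ ^ 4 ≤ (2 ^ (j + 1) * L * A) ^ 4 := by
              have : ‖SN N a φ x‖ ≤ 2 ^ (j + 1) * L * A := by
                rw [mul_assoc]
                exact hj2.le
              gcongr
          _ = (F j).indicator (fun _ => (2 ^ (j + 1) * L * A) ^ 4) x := by
              rw [Set.indicator_of_mem hxj]
          _ ≤ _ := Finset.single_le_sum hnn (Finset.mem_range.2 hjK)
      · rw [Set.indicator_of_notMem hx]
        exact Finset.sum_nonneg hnn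
    have hint : ∀ i ∈ Finset.range K,
        Integrable ((F i).indicator fun _ => (2 ^ (i + 1) * L * A) ^ 4) := by
      intro i _
      exact (integrableOn_const (hFf i)).integrable_indicator (hFm i)
    calc ∫ x, E.indicator (fun x => ‖SN N a φ x‖ ^ 4) x
        ≤ ∫ x, ∑ i ∈ Finset.range K, (F i).indicator (fun _ => (2 ^ (i + 1) * L * A) ^ 4) x := by
          refine integral_mono_of_nonneg (Filter.Eventually.of_forall fun x =>
            Set.indicator_nonneg (fun _ _ => by positivity) x)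
            (integrable_finsetSum _ hint) (Filter.Eventually.of_forall hpt)
      _ = ∑ i ∈ Finset.range K, ∫ x, (F i).indicator (fun _ => (2 ^ (i + 1) * L * A) ^ 4) x :=
          integral_finsetSum _ hint
      _ ≤ ∑ i ∈ Finset.range K, 16 * C₀ * (N : ℝ) ^ (ε / 2) * A ^ 4 := by
          refine Finset.sum_le_sum fun i _ => ?_
          rw [integral_indicator_const _ (hFm i), smul_eq_mul]
          have h1 := hFv i
          have h2 : (0 : ℝ) < 2 ^ i * L := mul_pos (by positivity) (by linarith)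
          calc volume.real (F i) * (2 ^ (i + 1) * L * A) ^ 4
              ≤ (C₀ * (N : ℝ) ^ (ε / 2) * (2 ^ i * L)⁻¹ ^ 4) * (2 ^ (i + 1) * L * A) ^ 4 := by
                refine mul_le_mul_of_nonneg_right h1 (by positivity)
            _ = 16 * C₀ * (N : ℝ) ^ (ε / 2) * A ^ 4 * ((2 ^ i * L)⁻¹ * (2 ^ i * L)) ^ 4 := by
                rw [pow_succ]
                ring
            _ = 16 * C₀ * (N : ℝ) ^ (ε / 2) * A ^ 4 := by
                rw [inv_mul_cancel₀ h2.ne', one_pow, mul_one]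
      _ = K * (16 * C₀ * (N : ℝ) ^ (ε / 2) * A ^ 4) := by
          rw [Finset.sum_const, Finset.card_range, nsmul_eq_mul]
      _ ≤ (C₁ * (N : ℝ) ^ (ε / 2)) * (16 * C₀ * (N : ℝ) ^ (ε / 2) * A ^ 4) := by
          gcongr
      _ = 16 * C₀ * C₁ * ((N : ℝ) ^ (ε / 2) * (N : ℝ) ^ (ε / 2)) * A ^ 4 := by ring
      _ = 16 * C₀ * C₁ * (N : ℝ) ^ ε * A ^ 4 := by
          rw [← Real.rpow_add hN0, add_halves]
      _ ≤ C * (N : ℝ) ^ ε * A ^ 4 := by
          gcongr

end Pool.Agent.LVS
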