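import Mathlib

set_option autoImplicit false

/-!
# LVS: the large values of quadratic exponential sums with measurable phase (MP_1e9ba9_an)

Theorem: for every `ε > 0` there is `C` such that for all measurable `φ`, all `N ≥ 1` and all `a` the
integral of `|S_N|⁴` over the `x` in `[-1, 1]` with `|S_N(x)| ≥ C N^(1/4+ε) ‖a‖` is at most
`C N^ε ‖a‖⁴`.

Proof. `E` a set of large values, `μ = |E|`. Duality and Cauchy-Schwarz: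
`λ² μ² ≤ ∬_{E×E} |K(φ(x)-φ(x'), x-x')|`, `K(y,t) = ∑_{|n| ≤ N} e(n y + n² t)`. Weyl differencing bounds
`|K|²` without `y` by `2N+1 + ∑_{0<|h|≤2N} min(2N+1, 1/(2‖2ht‖))`, which is majorised by Fejer kernels;
their Fourier coefficients are (number of divisors) `O(N^ε)`; Bessel:
`∬_{E×E} |K|² ≤ C N^ε (N μ² + μ)`. So `λ⁴ μ² ≤ C N^ε (N μ² + μ)`.
-/

open MeasureTheory Set

namespace Pool.Agent.LVS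

/-- `e(t) = exp(2 π i t)` -/
noncomputable def ee (t : ℝ) : ℂ := Complex.exp (2 * Real.pi * t * Complex.I)

/-- `S_N(x)` -/
noncomputable def SN (N : ℕ) (a : ℤ → ℂ) (φ : ℝ → ℝ) (x : ℝ) : ℂ :=
  ∑ n ∈ Finset.Icc (-(N : ℤ)) N, a n * ee (n * φ x + n ^ 2 * x)

/-- `‖a‖` -/
noncomputable def nrm (N : ℕ) (a : ℤ → ℂ) : ℝ :=
  Real.sqrt (∑ n ∈ Finset.Icc (-(N : ℤ)) N, ‖a n‖ ^ 2)

/-- the kernel -/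
noncomputable def KK (N : ℕ) (y t : ℝ) : ℂ :=
  ∑ n ∈ Finset.Icc (-(N : ℤ)) N, ee (n * y + n ^ 2 * t)

/-- the nonzero integers of absolute value at most `2 N` -/
noncomputable def hh (N : ℕ) : Finset ℤ := (Finset.Icc (-(2 * N : ℤ)) (2 * N)).erase 0

/-- MODULE GEO: a geometric sum over an interval of at most `2^J` integers. For
`‖t‖ > 2^(-J-3)` it is at most `1/(2‖t‖)`; the Fejer kernel
`‖∑_{k<2^j} e(kt)‖²` is at least `4^j / 2` if `‖t‖ ≤ 2^(-j-3)` (all terms have real part `≥ cos(π/4)`);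
take the largest `j ≤ J` with `‖t‖ ≤ 2^(-j-3)`, or `j = 0` if `‖t‖ > 1/8`. -/
def St_GEO : Prop := ∀ (J : ℕ) (u v : ℤ) (t : ℝ), v - u + 1 ≤ 2 ^ J →
  ‖∑ m ∈ Finset.Icc u v, ee (m * t)‖ ≤
    16 * ∑ j ∈ Finset.range (J + 1), (1 / 2 ^ j : ℝ) * ‖∑ k ∈ Finset.range (2 ^ j), ee (k * t)‖ ^ 2

/-- MODULE KER (from GEO): Weyl differencing, `n = m + h`, `n² - m² = h² + 2 h m`. -/
def St_KER : Prop := ∀ (N J : ℕ), 2 * N + 1 ≤ 2 ^ J → ∀ y t : ℝ,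
  ‖KK N y t‖ ^ 2 ≤ (2 * N + 1) + 16 * ∑ h ∈ hh N, ∑ j ∈ Finset.range (J + 1),
    (1 / 2 ^ j : ℝ) * ‖∑ k ∈ Finset.range (2 ^ j), ee (k * (2 * h * t))‖ ^ 2

/-- MODULE BES: Bessel's inequality on `[-1, 1]` for the indicator function of `E`. -/
def St_BES : Prop := ∀ (E : Set ℝ), MeasurableSet E → E ⊆ Icc (-1) 1 → ∀ M : Finset ℤ,
  ∑ m ∈ M, ‖∫ x in E, ee (m * x)‖ ^ 2 ≤ 2 * (volume E).toReal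

/-- MODULE DIV: the divisor bound -/
def St_DIV : Prop := ∀ ε : ℝ, 0 < ε → ∃ C : ℝ, 0 < C ∧ ∀ m : ℕ, 1 ≤ m →
  (m.divisors.card : ℝ) ≤ C * (m : ℝ) ^ ε

/-- MODULE DBL (from BES, DIV): the terms `k = k'` give `(J+1) (4N) μ²`; for `l = k - k' ≠ 0` there are
at most `2^j` pairs, `2 h l = 2 m` has at most `2 d(|m|)` solutions `(h, l)`, `0 < |m| ≤ 2N 2^J`. -/
def St_DBL : Prop := ∀ ε : ℝ, 0 < ε → ∃ C : ℝ, 0 < C ∧ ∀ (N J : ℕ), 1 ≤ N → 2 ^ J ≤ 4 * N + 2 →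
  ∀ E : Set ℝ, MeasurableSet E → E ⊆ Icc (-1) 1 →
  ∑ h ∈ hh N, ∑ j ∈ Finset.range (J + 1), (1 / 2 ^ j : ℝ) *
    ∑ k ∈ Finset.range (2 ^ j), ∑ k' ∈ Finset.range (2 ^ j),
      ‖∫ x in E, ee (((2 * h * ((k : ℤ) - k') : ℤ) : ℝ) * x)‖ ^ 2 ≤
    C * (N : ℝ) ^ ε * (N * (volume E).toReal ^ 2 + (volume E).toReal)

/-- MODULE SQ (from KER, DBL): `∬ e(m (x - x')) = |∫ e(m x)|²` -/
def St_SQ : Prop := ∀ ε : ℝ, 0 < ε → ∃ C : ℝ, 0 < C ∧ ∀ (N : ℕ), 1 ≤ N → ∀ φ : ℝ → ℝ,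
  Measurable φ → ∀ E : Set ℝ, MeasurableSet E → E ⊆ Icc (-1) 1 →
  ∫ p in E ×ˢ E, ‖KK N (φ p.1 - φ p.2) (p.1 - p.2)‖ ^ 2 ≤
    C * (N : ℝ) ^ ε * (N * (volume E).toReal ^ 2 + (volume E).toReal)

/-- MODULE DUAL: `c = conj S / |S|`, `b_n = ∫_E c e(n φ + n² x)`, `λ ‖a‖ μ ≤ ∫_E |S| = ∑ a_n b_n`,
`∑ |b_n|² = ∬ c(x) conj c(x') K ≤ ∬ |K|`. -/
def St_DUAL : Prop := ∀ (N : ℕ) (a : ℤ → ℂ) (φ : ℝ → ℝ), Measurable φ → ∀ E : Set ℝ,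
  MeasurableSet E → E ⊆ Icc (-1) 1 → ∀ l : ℝ, 0 ≤ l → 0 < nrm N a →
  (∀ x ∈ E, l * nrm N a ≤ ‖SN N a φ x‖) →
  l ^ 2 * (volume E).toReal ^ 2 ≤ ∫ p in E ×ˢ E, ‖KK N (φ p.1 - φ p.2) (p.1 - p.2)‖

/-- MODULE LV (from SQ, DUAL): large values; Cauchy-Schwarz on `E ×ˢ E`. -/
def St_LV : Prop := ∀ ε : ℝ, 0 < ε → ∃ C : ℝ, 0 < C ∧ ∀ (N : ℕ), 1 ≤ N → ∀ (a : ℤ → ℂ)
  (φ : ℝ → ℝ), Measurable φ → 0 < nrm N a → ∀ l : ℝ, C * (N : ℝ) ^ (1 / 4 + ε) ≤ l →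
  (volume {x | x ∈ Icc (-1 : ℝ) 1 ∧ l * nrm N a ≤ ‖SN N a φ x‖}).toReal ≤
    C * (N : ℝ) ^ ε * l⁻¹ ^ 4

/-- MODULE FIN (from LV): dyadic levels `2^i Λ`, `Λ = C N^(1/4+ε)`, `|S_N| ≤ √(2N+1) ‖a‖`. -/
def St_FIN : Prop := ∀ ε : ℝ, 0 < ε → ∃ C : ℝ, 0 < C ∧ ∀ φ : ℝ → ℝ, Measurable φ →
  ∀ N : ℕ, 1 ≤ N → ∀ a : ℤ → ℂ,
  ∫ x in {x | x ∈ Icc (-1 : ℝ) 1 ∧ C * (N : ℝ) ^ (1 / 4 + ε) * nrm N a ≤ ‖SN N a φ x‖},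
    ‖SN N a φ x‖ ^ 4 ≤ C * (N : ℝ) ^ ε * nrm N a ^ 4

end Pool.Agent.LVS
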