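import Mathlib
import Pool.Agent.LVS.St

set_option autoImplicit false

open MeasureTheory Set

namespace Pool.Agent.LVS

theorem ee_add (s t : ℝ) : ee (s + t) = ee s * ee t := by
  unfold ee
  rw [← Complex.exp_add]
  congr 1
  push_cast
  ring

theorem ee_int (m : ℤ) : ee m = 1 := by
  unfold ee
  rw [Complex.exp_eq_one_iff]
  exact ⟨m, by push_cast; ring⟩

theorem norm_ee (t : ℝ) : ‖ee t‖ = 1 := by
  unfold ee
  have : (2 * (Real.pi : ℂ) * t * Complex.I) = ((2 * Real.pi * t : ℝ) : ℂ) * Complex.I := by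
    push_cast
    ring
  rw [this, Complex.norm_exp_ofReal_mul_I]

theorem ee_re (t : ℝ) : (ee t).re = Real.cos (2 * Real.pi * t) := by
  unfold ee
  have : (2 * (Real.pi : ℂ) * t * Complex.I) = ((2 * Real.pi * t : ℝ) : ℂ) * Complex.I := by
    push_cast
    ring
  rw [this, Complex.exp_ofReal_mul_I_re]

theorem ee_zero : ee 0 = 1 := by
  unfold ee
  simp

theorem ee_round (m : ℤ) (t : ℝ) : ee (m * t) = ee (m * (t - round t)) := by
  have : (m : ℝ) * t = m * (t - round t) + ((m * round t : ℤ) : ℝ) := by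
    push_cast
    ring
  rw [this, ee_add, ee_int, mul_one]

/-- `|e(s) - 1| ≥ 4 |s|` -/
theorem ee_sub_one {s : ℝ} (hs : |s| ≤ 1 / 2) : 4 * |s| ≤ ‖ee s - 1‖ := by
  have h1 : ‖ee s - 1‖ = 2 * |Real.sin (Real.pi * s)| := by
    unfold ee
    have e : (2 * (Real.pi : ℂ) * s * Complex.I) =
        Complex.I * ((2 * Real.pi * s : ℝ) : ℂ) := by
      push_cast
      ring
    rw [e, Complex.norm_exp_I_mul_ofReal_sub_one, norm_mul, Real.norm_eq_abs, Real.norm_eq_abs,
      abs_of_pos (by norm_num : (0 : ℝ) < 2)]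
    congr 3
    ring
  rw [h1]
  have h2 : 2 / Real.pi * (Real.pi * |s|) ≤ Real.sin (Real.pi * |s|) := by
    apply Real.mul_le_sin
    · positivity
    · nlinarith [Real.pi_pos]
  have h3 : 2 / Real.pi * (Real.pi * |s|) = 2 * |s| := by
    field_simp
  have h4 : Real.sin (Real.pi * |s|) ≤ |Real.sin (Real.pi * s)| := by
    rcases abs_choice s with h | h
    · rw [h]
      exact le_abs_self _
    · rw [h]
      have : Real.pi * -s = -(Real.pi * s) := by ring
      rw [this, Real.sin_neg]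
      exact neg_le_abs _
  linarith

/-- geometric sum -/
theorem geo_bound (u v : ℤ) {s : ℝ} (hs : |s| ≤ 1 / 2) (hs0 : 0 < |s|) :
    ‖∑ m ∈ Finset.Icc u v, ee (m * s)‖ ≤ 1 / (2 * |s|) := by
  have hne : ee s - 1 ≠ 0 := by
    intro h
    have h1 := ee_sub_one hs
    rw [h, norm_zero] at h1
    linarith
  have hpos : 0 < ‖ee s - 1‖ := norm_pos_iff.2 hne
  -- telescoping
  have key : ∀ L : ℕ, ∀ u : ℤ, (∑ m ∈ Finset.Ico u (u + L), ee (m * s)) * (ee s - 1) =
      ee ((u + L : ℤ) * s) - ee (u * s) := by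
    intro L
    induction L with
    | zero => intro u; simp
    | succ L ih =>
      intro u
      have h1 : Finset.Ico u (u + ((L + 1 : ℕ) : ℤ)) =
          insert (u + (L : ℤ)) (Finset.Ico u (u + (L : ℤ))) := by
        ext m
        simp only [Finset.mem_insert, Finset.mem_Ico]
        push_cast
        omega
      rw [h1, Finset.sum_insert (by simp), add_mul, ih u]
      have h2 : (((u + ((L + 1 : ℕ) : ℤ) : ℤ) : ℝ)) * s = ((u + L : ℤ) : ℝ) * s + s := by
        push_cast
        ring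
      rw [h2, ee_add]
      ring
  rcases lt_or_ge v u with hlt | hle
  · rw [Finset.Icc_eq_empty (by omega), Finset.sum_empty, norm_zero]
    positivity
  · have h1 : Finset.Icc u v = Finset.Ico u (u + ((v + 1 - u).toNat : ℤ)) := by
      ext m
      simp only [Finset.mem_Icc, Finset.mem_Ico]
      omega
    rw [h1]
    have h2 := key (v + 1 - u).toNat u
    have h3 : ‖∑ m ∈ Finset.Ico u (u + ((v + 1 - u).toNat : ℤ)), ee (m * s)‖ * ‖ee s - 1‖ ≤ 2 := by
      rw [← norm_mul, h2]
      calc _ ≤ ‖ee (((u + ((v + 1 - u).toNat : ℕ) : ℤ) : ℝ) * s)‖ + ‖ee (u * s)‖ := norm_sub_le _ _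
        _ = 2 := by rw [norm_ee, norm_ee]; norm_num
    have h4 := ee_sub_one hs
    rw [le_div_iff₀ (by positivity)]
    have h5 := norm_nonneg (∑ m ∈ Finset.Ico u (u + ((v + 1 - u).toNat : ℤ)), ee (m * s))
    nlinarith

/-- the Fejer kernel near `0` -/
theorem fejer_lower (j : ℕ) {s : ℝ} (hs : |s| ≤ 1 / 2 ^ (j + 3)) :
    (2 : ℝ) ^ j / 2 ≤ (1 / 2 ^ j : ℝ) * ‖∑ k ∈ Finset.range (2 ^ j), ee (k * s)‖ ^ 2 := by
  have h1 : (2 : ℝ) ^ j * (Real.sqrt 2 / 2) ≤ ‖∑ k ∈ Finset.range (2 ^ j), ee (k * s)‖ := by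
    refine le_trans ?_ (Complex.re_le_norm _)
    rw [Complex.re_sum]
    calc (2 : ℝ) ^ j * (Real.sqrt 2 / 2) = ∑ _k ∈ Finset.range (2 ^ j), Real.sqrt 2 / 2 := by
          rw [Finset.sum_const, Finset.card_range, nsmul_eq_mul]
          push_cast
          ring
      _ ≤ _ := Finset.sum_le_sum fun k hk => by
          rw [ee_re, ← Real.cos_pi_div_four, ← Real.cos_abs (2 * Real.pi * (k * s))]
          have hk' : (k : ℝ) ≤ 2 ^ j := by
            have := (Finset.mem_range.1 hk).le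
            exact_mod_cast this
          have h2 : |2 * Real.pi * (k * s)| ≤ Real.pi / 4 := by
            rw [abs_mul (2 * Real.pi), abs_mul (k : ℝ), abs_of_pos (by positivity : (0 : ℝ) < 2 * Real.pi),
              Nat.abs_cast]
            have h3 : (k : ℝ) * |s| ≤ 2 ^ j * (1 / 2 ^ (j + 3)) :=
              mul_le_mul hk' hs (abs_nonneg _) (by positivity)
            have h4 : (2 : ℝ) ^ j * (1 / 2 ^ (j + 3)) = 1 / 8 := by
              rw [pow_add]
              field_simp
              norm_num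
            rw [h4] at h3
            nlinarith [Real.pi_pos]
          apply Real.cos_le_cos_of_nonneg_of_le_pi (abs_nonneg _) _ h2
          linarith [Real.pi_pos]
  have h2 : ((2 : ℝ) ^ j * (Real.sqrt 2 / 2)) ^ 2 ≤
      ‖∑ k ∈ Finset.range (2 ^ j), ee (k * s)‖ ^ 2 :=
    pow_le_pow_left₀ (by positivity) h1 2
  have h3 : ((2 : ℝ) ^ j * (Real.sqrt 2 / 2)) ^ 2 = (2 : ℝ) ^ j * 2 ^ j / 2 := by
    rw [mul_pow, div_pow, Real.sq_sqrt (by norm_num)]
    ring
  rw [h3] at h2
  have h4 : (0 : ℝ) < 2 ^ j := by positivity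
  rw [one_div, ← div_eq_inv_mul, le_div_iff₀ h4]
  linarith

theorem thm_GEO : St_GEO := by
  intro J u v t huv
  set s := t - round t with hs
  have hs2 : |s| ≤ 1 / 2 := abs_sub_round t
  have e1 : ∑ m ∈ Finset.Icc u v, ee (m * t) = ∑ m ∈ Finset.Icc u v, ee (m * s) :=
    Finset.sum_congr rfl fun m _ => ee_round m t
  have e2 : ∀ j : ℕ, ∑ k ∈ Finset.range (2 ^ j), ee (k * t) =
      ∑ k ∈ Finset.range (2 ^ j), ee (k * s) := fun j =>
    Finset.sum_congr rfl fun k _ => by
      have := ee_round (k : ℤ) t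
      push_cast at this
      exact this
  rw [e1]
  simp only [e2]
  have hterm : ∀ j : ℕ, j ∈ Finset.range (J + 1) →
      (1 / 2 ^ j : ℝ) * ‖∑ k ∈ Finset.range (2 ^ j), ee (k * s)‖ ^ 2 ≤
      ∑ j ∈ Finset.range (J + 1), (1 / 2 ^ j : ℝ) *
        ‖∑ k ∈ Finset.range (2 ^ j), ee (k * s)‖ ^ 2 := fun j hj =>
    Finset.single_le_sum (f := fun j => (1 / 2 ^ j : ℝ) *
      ‖∑ k ∈ Finset.range (2 ^ j), ee (k * s)‖ ^ 2) (fun _ _ => by positivity) hj
  by_cases h0 : |s| ≤ 1 / 2 ^ (0 + 3)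
  · -- the largest good j
    set P : ℕ → Prop := fun j => |s| ≤ 1 / 2 ^ (j + 3) with hP
    classical
    set j := Nat.findGreatest P J with hj
    have hPj : P j := Nat.findGreatest_spec (Nat.zero_le J) h0
    have hjJ : j ≤ J := Nat.findGreatest_le J
    have h1 := hterm j (Finset.mem_range.2 (by omega))
    have h2 := fejer_lower j hPj
    have h3 : ‖∑ m ∈ Finset.Icc u v, ee (m * s)‖ ≤ 8 * 2 ^ j := by
      rcases eq_or_lt_of_le hjJ with hjj | hjj
      · rw [hjj]
        calc ‖∑ m ∈ Finset.Icc u v, ee (m * s)‖ ≤ ∑ m ∈ Finset.Icc u v, ‖ee (m * s)‖ :=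
              norm_sum_le _ _
          _ = ((Finset.Icc u v).card : ℝ) := by
              simp only [norm_ee, Finset.sum_const, nsmul_eq_mul, mul_one]
          _ ≤ 2 ^ J := by
              rw [Int.card_Icc]
              have : ((v + 1 - u).toNat : ℤ) ≤ 2 ^ J := by
                have h5 : (0 : ℤ) ≤ 2 ^ J := by positivity
                omega
              exact_mod_cast this
          _ ≤ 8 * 2 ^ J := by
              have : (0 : ℝ) < 2 ^ J := by positivity
              linarith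
      · have hn : ¬ P (j + 1) := Nat.findGreatest_is_greatest (Nat.lt_succ_self j) hjj
        have hn' : 1 / 2 ^ (j + 1 + 3) < |s| := not_le.1 hn
        have hs0 : 0 < |s| := lt_trans (by positivity) hn'
        refine (geo_bound u v hs2 hs0).trans ?_
        rw [div_le_iff₀ (by positivity)]
        have h5 : (1 : ℝ) / 2 ^ (j + 1 + 3) * (16 * 2 ^ j) = 1 := by
          rw [pow_add, pow_add]
          field_simp
          norm_num
        have h6 : (1 : ℝ) / 2 ^ (j + 1 + 3) * (16 * 2 ^ j) ≤ |s| * (16 * 2 ^ j) :=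
          mul_le_mul_of_nonneg_right hn'.le (by positivity)
        linarith
    linarith
  · have hn' : 1 / 2 ^ (0 + 3) < |s| := not_le.1 h0
    have hn2 : (1 : ℝ) / 8 < |s| := by
      refine lt_of_eq_of_lt ?_ hn'
      norm_num
    have hs0 : 0 < |s| := lt_trans (by norm_num) hn2
    have h1 := hterm 0 (Finset.mem_range.2 (by omega))
    have h2 : (1 / 2 ^ 0 : ℝ) * ‖∑ k ∈ Finset.range (2 ^ 0), ee (k * s)‖ ^ 2 = 1 := by
      simp [ee_zero]
    rw [h2] at h1
    refine (geo_bound u v hs2 hs0).trans ?_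
    have h3 : 1 / (2 * |s|) ≤ 4 := by
      rw [div_le_iff₀ (by positivity)]
      linarith
    linarith

end Pool.Agent.LVS
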