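import Mathlib
import Pool.Agent.LVS.St
import Pool.Agent.LVS.GEO

set_option autoImplicit false

open MeasureTheory Set

namespace Pool.Agent.LVS

theorem ker_ee_conj (t : ℝ) : (starRingEnd ℂ) (ee t) = ee (-t) := by
  unfold ee
  rw [← Complex.exp_conj]
  congr 1
  simp only [map_mul, Complex.conj_ofReal, Complex.conj_I, map_ofNat]
  push_cast
  ring

theorem thm_KER (hG : St_GEO) : St_KER := by
  intro N J hJ y t
  set I := Finset.Icc (-(N : ℤ)) N with hI
  set H := Finset.Icc (-(2 * N : ℤ)) (2 * N) with hH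
  set f : ℤ → ℂ := fun n => ee (n * y + n ^ 2 * t) with hf
  have h1 : ((‖KK N y t‖ ^ 2 : ℝ) : ℂ) =
      ∑ h ∈ H, ∑ p ∈ (I ×ˢ I).filter (fun p => p.1 - p.2 = h), f p.1 * (starRingEnd ℂ) (f p.2) := by
    have h2 : ((‖KK N y t‖ ^ 2 : ℝ) : ℂ) = KK N y t * (starRingEnd ℂ) (KK N y t) := by
      rw [Complex.mul_conj, Complex.normSq_eq_norm_sq]
    rw [h2]
    unfold KK
    rw [map_sum, Finset.sum_mul_sum, ← Finset.sum_product']
    rw [Finset.sum_fiberwise_of_maps_to]
    intro p hp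
    rw [Finset.mem_product] at hp
    have h3 := Finset.mem_Icc.1 hp.1
    have h4 := Finset.mem_Icc.1 hp.2
    exact Finset.mem_Icc.2 ⟨by linarith [h3.1, h4.2], by linarith [h3.2, h4.1]⟩
  -- the inner sums
  have hin : ∀ h : ℤ, ‖∑ p ∈ (I ×ˢ I).filter (fun p => p.1 - p.2 = h),
      f p.1 * (starRingEnd ℂ) (f p.2)‖ =
      ‖∑ m ∈ Finset.Icc (max (-(N : ℤ)) (-N - h)) (min (N : ℤ) (N - h)), ee (m * (2 * h * t))‖ := by
    intro h
    have e1 : ∑ p ∈ (I ×ˢ I).filter (fun p => p.1 - p.2 = h), f p.1 * (starRingEnd ℂ) (f p.2) =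
        ∑ m ∈ Finset.Icc (max (-(N : ℤ)) (-N - h)) (min (N : ℤ) (N - h)),
          ee (h * y + h ^ 2 * t) * ee (m * (2 * h * t)) := by
      refine Finset.sum_nbij' (fun p => p.2) (fun m => (m + h, m)) ?_ ?_ ?_ ?_ ?_
      · rintro ⟨n, m⟩ hp
        simp only [Finset.mem_filter, Finset.mem_product, hI, Finset.mem_Icc] at hp ⊢
        omega
      · intro m hm
        simp only [Finset.mem_filter, Finset.mem_product, hI, Finset.mem_Icc] at hm ⊢
        omega
      · rintro ⟨n, m⟩ hp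
        simp only [Finset.mem_filter] at hp
        have : m + h = n := by omega
        rw [this]
      · intro m _
        rfl
      · rintro ⟨n, m⟩ hp
        simp only [Finset.mem_filter] at hp
        have hn : n = m + h := by omega
        subst hn
        simp only [hf]
        rw [ker_ee_conj, ← ee_add, ← ee_add]
        congr 1
        push_cast
        ring
    rw [e1, ← Finset.mul_sum, norm_mul, norm_ee, one_mul]
  have hle : ‖KK N y t‖ ^ 2 ≤ ∑ h ∈ H, ‖∑ m ∈ Finset.Icc (max (-(N : ℤ)) (-N - h))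
      (min (N : ℤ) (N - h)), ee (m * (2 * h * t))‖ := by
    have h3 : ‖KK N y t‖ ^ 2 = ‖((‖KK N y t‖ ^ 2 : ℝ) : ℂ)‖ := by
      rw [Complex.norm_real, Real.norm_eq_abs, abs_of_nonneg (by positivity)]
    rw [h3, h1]
    refine (norm_sum_le _ _).trans (le_of_eq ?_)
    exact Finset.sum_congr rfl fun h _ => hin h
  have h0 : (0 : ℤ) ∈ H := by
    rw [hH, Finset.mem_Icc]
    constructor <;> omega
  rw [← Finset.add_sum_erase _ _ h0] at hle
  have hz : ‖∑ m ∈ Finset.Icc (max (-(N : ℤ)) (-N - 0)) (min (N : ℤ) (N - 0)),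
      ee (m * (2 * ((0 : ℤ) : ℝ) * t))‖ ≤ 2 * N + 1 := by
    refine (norm_sum_le _ _).trans ?_
    simp only [norm_ee, Finset.sum_const, nsmul_eq_mul, mul_one]
    rw [Int.card_Icc]
    have : (((min (N : ℤ) (N - 0)) + 1 - max (-(N : ℤ)) (-N - 0)).toNat : ℤ) ≤ 2 * N + 1 := by
      omega
    exact_mod_cast this
  refine hle.trans (add_le_add hz ?_)
  rw [Finset.mul_sum]
  unfold hh
  refine Finset.sum_le_sum fun h _ => ?_
  refine hG J _ _ _ ?_
  have hJ' : ((2 * N + 1 : ℕ) : ℤ) ≤ 2 ^ J := by exact_mod_cast hJ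
  push_cast at hJ'
  omega

end Pool.Agent.LVS
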