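import Mathlib
import Pool.Agent.LVS.St

set_option autoImplicit false

/-!
# LVS, module LV: large values
-/

open MeasureTheory Set

namespace Pool.Agent.LVS

theorem lv_norm_ee (t : ℝ) : ‖ee t‖ = 1 := by
  unfold ee
  rw [show (2 * Real.pi * t * Complex.I : ℂ) = ((2 * Real.pi * t : ℝ) : ℂ) * Complex.I by push_cast; ring]
  exact Complex.norm_exp_ofReal_mul_I _

theorem lv_cont_ee : Continuous ee := by
  unfold ee
  fun_prop

theorem lv_SN_measurable (N : ℕ) (a : ℤ → ℂ) {φ : ℝ → ℝ} (hφ : Measurable φ) :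
    Measurable (SN N a φ) := by
  unfold SN
  apply Finset.measurable_sum
  intro n _
  exact (lv_cont_ee.measurable.comp ((hφ.const_mul _).add (measurable_id.const_mul _))).const_mul _

theorem lv_KK_measurable (N : ℕ) {φ : ℝ → ℝ} (hφ : Measurable φ) :
    Measurable (fun p : ℝ × ℝ => KK N (φ p.1 - φ p.2) (p.1 - p.2)) := by
  unfold KK
  apply Finset.measurable_sum
  intro n _
  apply lv_cont_ee.measurable.comp
  exact (((hφ.comp measurable_fst).sub (hφ.comp measurable_snd)).const_mul _).add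
    ((measurable_fst.sub measurable_snd).const_mul _)

theorem lv_KK_bound (N : ℕ) (y t : ℝ) : ‖KK N y t‖ ≤ (Finset.Icc (-(N : ℤ)) N).card := by
  unfold KK
  refine (norm_sum_le _ _).trans (le_of_eq ?_)
  rw [Finset.sum_congr rfl (fun n _ => lv_norm_ee _), Finset.sum_const, nsmul_eq_mul, mul_one]

/-- the fourth power inequality -/
theorem lv_four (hD : St_DUAL) (N : ℕ) (a : ℤ → ℂ) (φ : ℝ → ℝ) (hφ : Measurable φ) (E : Set ℝ)
    (hE : MeasurableSet E) (hE1 : E ⊆ Icc (-1) 1) (l : ℝ) (hl : 0 < l) (hn : 0 < nrm N a)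
    (h : ∀ x ∈ E, l * nrm N a ≤ ‖SN N a φ x‖) :
    l ^ 4 * (volume E).toReal ^ 2 ≤
      ∫ p in E ×ˢ E, ‖KK N (φ p.1 - φ p.2) (p.1 - p.2)‖ ^ 2 := by
  have h1 := hD N a φ hφ E hE hE1 l hl.le hn h
  have hfin : volume E < ⊤ := lt_of_le_of_lt (measure_mono hE1) (by
    rw [Real.volume_Icc]
    exact ENNReal.ofReal_lt_top)
  obtain ⟨ν, hν⟩ : ∃ ν : Measure (ℝ × ℝ), ν = volume.restrict (E ×ˢ E) := ⟨_, rfl⟩
  have hvE : (volume (E ×ˢ E) : ENNReal) = volume E * volume E := by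
    rw [Measure.volume_eq_prod, Measure.prod_prod]
  haveI : IsFiniteMeasure ν := by
    rw [hν]
    refine ⟨?_⟩
    rw [Measure.restrict_apply_univ, hvE]
    exact ENNReal.mul_lt_top hfin hfin
  obtain ⟨k, hk⟩ : ∃ k : ℝ × ℝ → ℝ, k = fun p => ‖KK N (φ p.1 - φ p.2) (p.1 - p.2)‖ := ⟨_, rfl⟩
  have hkm : Measurable k := by
    rw [hk]
    exact (lv_KK_measurable N hφ).norm
  have hk0 : ∀ p, 0 ≤ k p := by
    intro p
    rw [hk]
    exact norm_nonneg _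
  obtain ⟨B, hB⟩ : ∃ B : ℝ, B = (Finset.Icc (-(N : ℤ)) N).card := ⟨_, rfl⟩
  have hkB : ∀ p, k p ≤ B := by
    intro p
    rw [hk, hB]
    exact lv_KK_bound N _ _
  have hki : Integrable k ν := by
    refine Integrable.of_bound hkm.aestronglyMeasurable B (Filter.Eventually.of_forall fun p => ?_)
    rw [Real.norm_of_nonneg (hk0 p)]
    exact hkB p
  have hk2i : Integrable (fun p => k p ^ 2) ν := by
    refine Integrable.of_bound (hkm.pow_const 2).aestronglyMeasurable (B ^ 2)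
      (Filter.Eventually.of_forall fun p => ?_)
    rw [Real.norm_of_nonneg (by positivity)]
    exact pow_le_pow_left₀ (hk0 p) (hkB p) 2
  have e0 : ∫ p in E ×ˢ E, ‖KK N (φ p.1 - φ p.2) (p.1 - p.2)‖ = ∫ p, k p ∂ν := by
    rw [hν, hk]
  have e1 : ∫ p in E ×ˢ E, ‖KK N (φ p.1 - φ p.2) (p.1 - p.2)‖ ^ 2 = ∫ p, k p ^ 2 ∂ν := by
    rw [hν, hk]
  rw [e0] at h1
  rw [e1]
  have h2 : ∫ p, k p ∂ν ≤ ∫ p, (l ^ 2 / 2 + (l ^ 2)⁻¹ / 2 * k p ^ 2) ∂ν := by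
    apply integral_mono hki ((integrable_const _).add (hk2i.const_mul _))
    intro p
    have h3 : 0 ≤ (l - k p / l) ^ 2 := sq_nonneg _
    have h4 : (l - k p / l) ^ 2 = l ^ 2 - 2 * k p + (l ^ 2)⁻¹ * k p ^ 2 := by
      field_simp
      ring
    rw [h4] at h3
    have h9 : (l ^ 2)⁻¹ / 2 * k p ^ 2 = ((l ^ 2)⁻¹ * k p ^ 2) / 2 := by ring
    show k p ≤ l ^ 2 / 2 + (l ^ 2)⁻¹ / 2 * k p ^ 2
    rw [h9]
    linarith
  have h5 : ∫ p, (l ^ 2 / 2 + (l ^ 2)⁻¹ / 2 * k p ^ 2) ∂ν =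
      l ^ 2 / 2 * (volume E).toReal ^ 2 + (l ^ 2)⁻¹ / 2 * ∫ p, k p ^ 2 ∂ν := by
    rw [integral_add (integrable_const _) (hk2i.const_mul _), integral_const, integral_const_mul]
    have : ν.real univ = (volume E).toReal ^ 2 := by
      rw [measureReal_def, hν, Measure.restrict_apply_univ, hvE, ENNReal.toReal_mul, sq]
    rw [this, smul_eq_mul]
    ring
  rw [h5] at h2
  have h6 : l ^ 2 / 2 * (volume E).toReal ^ 2 ≤ (l ^ 2)⁻¹ / 2 * ∫ p, k p ^ 2 ∂ν := by linarith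
  have h7 : l ^ 2 * (l ^ 2 / 2 * (volume E).toReal ^ 2) ≤
      l ^ 2 * ((l ^ 2)⁻¹ / 2 * ∫ p, k p ^ 2 ∂ν) := mul_le_mul_of_nonneg_left h6 (by positivity)
  have h8 : l ^ 2 * ((l ^ 2)⁻¹ / 2 * ∫ p, k p ^ 2 ∂ν) = (∫ p, k p ^ 2 ∂ν) / 2 := by
    field_simp
  rw [h8] at h7
  nlinarith

theorem thm_LV (hS : St_SQ) (hD : St_DUAL) : St_LV := by
  intro ε hε
  obtain ⟨C₁, hC₁, h⟩ := hS ε hε
  obtain ⟨C, hC⟩ : ∃ C : ℝ, C = max 1 (2 * C₁) := ⟨_, rfl⟩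
  have hCa : 1 ≤ C := by rw [hC]; exact le_max_left _ _
  have hCb : 2 * C₁ ≤ C := by rw [hC]; exact le_max_right _ _
  have hC0 : 0 < C := by linarith
  refine ⟨C, hC0, fun N hN a φ hφ hn l hl => ?_⟩
  have hN1 : (1 : ℝ) ≤ N := by exact_mod_cast hN
  have hN0 : (0 : ℝ) < N := by linarith
  have hl0 : 0 < l := lt_of_lt_of_le (by positivity) hl
  obtain ⟨E, hE⟩ : ∃ E : Set ℝ, E = {x | x ∈ Icc (-1 : ℝ) 1 ∧ l * nrm N a ≤ ‖SN N a φ x‖} := ⟨_, rfl⟩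
  have hEm : MeasurableSet E := by
    rw [hE]
    exact measurableSet_Icc.inter (measurableSet_le measurable_const (lv_SN_measurable N a hφ).norm)
  have hE1 : E ⊆ Icc (-1) 1 := by
    rw [hE]
    exact fun x hx => hx.1
  have hE2 : ∀ x ∈ E, l * nrm N a ≤ ‖SN N a φ x‖ := by
    rw [hE]
    exact fun x hx => hx.2
  rw [← hE]
  have h1 := lv_four hD N a φ hφ E hEm hE1 l hl0 hn hE2
  have h2 := h1.trans (h N hN φ hφ E hEm hE1)
  obtain ⟨μ, hμ⟩ : ∃ μ : ℝ, μ = (volume E).toReal := ⟨_, rfl⟩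
  have hμ0 : 0 ≤ μ := by rw [hμ]; exact ENNReal.toReal_nonneg
  rw [← hμ] at h2 ⊢
  rcases hμ0.eq_or_lt with h0 | h0
  · rw [← h0]
    positivity
  have hNe : 0 < (N : ℝ) ^ ε := Real.rpow_pos_of_pos hN0 ε
  -- divide by `μ`
  have h3 : l ^ 4 * μ ≤ C₁ * (N : ℝ) ^ ε * (N * μ + 1) := by
    have e1 : l ^ 4 * μ ^ 2 = μ * (l ^ 4 * μ) := by ring
    have e2 : C₁ * (N : ℝ) ^ ε * (N * μ ^ 2 + μ) = μ * (C₁ * (N : ℝ) ^ ε * (N * μ + 1)) := by ring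
    rw [e1, e2] at h2
    exact le_of_mul_le_mul_left h2 h0
  have h4 : 2 * (C₁ * (N : ℝ) ^ ε * N) ≤ l ^ 4 := by
    have e1 : (C * (N : ℝ) ^ (1 / 4 + ε)) ^ 4 ≤ l ^ 4 := pow_le_pow_left₀ (by positivity) hl 4
    have e2 : (C * (N : ℝ) ^ (1 / 4 + ε)) ^ 4 = C ^ 4 * (N : ℝ) ^ (1 + 4 * ε) := by
      rw [mul_pow, ← Real.rpow_natCast ((N : ℝ) ^ (1 / 4 + ε)) 4, ← Real.rpow_mul hN0.le]
      congr 2
      push_cast
      ring
    have e3 : (N : ℝ) ^ ε * N ≤ (N : ℝ) ^ (1 + 4 * ε) := by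
      have : (N : ℝ) ^ ε * N = (N : ℝ) ^ (ε + 1) := by
        rw [Real.rpow_add hN0, Real.rpow_one]
      rw [this]
      exact Real.rpow_le_rpow_of_exponent_le hN1 (by linarith)
    have e4 : 2 * C₁ ≤ C ^ 4 := by
      have : C ≤ C ^ 4 := le_self_pow₀ hCa (by norm_num)
      linarith
    calc 2 * (C₁ * (N : ℝ) ^ ε * N) = 2 * C₁ * ((N : ℝ) ^ ε * N) := by ring
      _ ≤ C ^ 4 * (N : ℝ) ^ (1 + 4 * ε) := mul_le_mul e4 e3 (by positivity) (by positivity)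
      _ ≤ l ^ 4 := by rw [← e2]; exact e1
  have h5 : l ^ 4 * μ ≤ 2 * C₁ * (N : ℝ) ^ ε := by
    have e1 : C₁ * (N : ℝ) ^ ε * N * μ ≤ l ^ 4 / 2 * μ := mul_le_mul_of_nonneg_right (by linarith) hμ0
    have e2 : C₁ * (N : ℝ) ^ ε * (N * μ + 1) = C₁ * (N : ℝ) ^ ε * N * μ + C₁ * (N : ℝ) ^ ε := by ring
    rw [e2] at h3
    linarith
  have h6 : μ ≤ 2 * C₁ * (N : ℝ) ^ ε * l⁻¹ ^ 4 := by
    have e1 : μ = l ^ 4 * μ * l⁻¹ ^ 4 := by
      field_simp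
    rw [e1]
    exact mul_le_mul_of_nonneg_right h5 (by positivity)
  refine h6.trans ?_
  apply mul_le_mul_of_nonneg_right _ (by positivity)
  exact mul_le_mul_of_nonneg_right hCb hNe.le

end Pool.Agent.LVS
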