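import Mathlib
import Pool.Agent.LVS.St
import Pool.Agent.LVS.GEO

set_option autoImplicit false

/-!
# LVS, module SQ: the square of the kernel on `E ×ˢ E`
-/

open MeasureTheory Set

namespace Pool.Agent.LVS

lemma sq_ee_cont : Continuous ee := by
  unfold ee
  fun_prop

lemma sq_ee_conj (t : ℝ) : (starRingEnd ℂ) (ee t) = ee (-t) := by
  unfold ee
  rw [← Complex.exp_conj]
  congr 1
  simp only [map_mul, Complex.conj_I, Complex.conj_ofReal, map_ofNat]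
  push_cast; ring

/-- the double integral of a difference kernel -/
lemma int_diff (E : Set ℝ) (m : ℝ) :
    ∫ p in E ×ˢ E, ee (m * (p.1 - p.2)) = ((‖∫ x in E, ee (m * x)‖ ^ 2 : ℝ) : ℂ) := by
  have h1 : ∀ p : ℝ × ℝ, ee (m * (p.1 - p.2)) = ee (m * p.1) * (starRingEnd ℂ) (ee (m * p.2)) := by
    intro p
    rw [sq_ee_conj, ← ee_add]
    congr 1; ring
  simp_rw [h1]
  rw [Measure.volume_eq_prod, ← Measure.prod_restrict,
    integral_prod_mul (fun x => ee (m * x)) (fun x => (starRingEnd ℂ) (ee (m * x))), integral_conj,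
    Complex.mul_conj, Complex.normSq_eq_norm_sq]

lemma sq_expand (n : ℕ) (u : ℝ) :
    ((‖∑ k ∈ Finset.range n, ee (k * u)‖ ^ 2 : ℝ) : ℂ) =
      ∑ k ∈ Finset.range n, ∑ k' ∈ Finset.range n, ee (((k : ℤ) - k' : ℤ) * u) := by
  rw [← Complex.normSq_eq_norm_sq, ← Complex.mul_conj, map_sum, Finset.sum_mul]
  refine Finset.sum_congr rfl fun k _ => ?_
  rw [Finset.mul_sum]
  refine Finset.sum_congr rfl fun k' _ => ?_
  rw [sq_ee_conj, ← ee_add]
  congr 1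
  push_cast; ring

lemma int_on (E : Set ℝ) (hE : E ⊆ Icc (-1) 1) {F : Type*} [NormedAddCommGroup F]
    (f : ℝ × ℝ → F) (hf : Continuous f) : IntegrableOn f (E ×ˢ E) := by
  have hK : IsCompact ((Icc (-1 : ℝ) 1) ×ˢ (Icc (-1 : ℝ) 1)) := isCompact_Icc.prod isCompact_Icc
  exact (hf.continuousOn.integrableOn_compact hK).mono_set (prod_mono hE hE)

lemma int_sq (E : Set ℝ) (hE : E ⊆ Icc (-1) 1) (n : ℕ) (h : ℤ) :
    ∫ p in E ×ˢ E, ‖∑ k ∈ Finset.range n, ee (k * (2 * h * (p.1 - p.2)))‖ ^ 2 =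
      ∑ k ∈ Finset.range n, ∑ k' ∈ Finset.range n,
        ‖∫ x in E, ee (((2 * h * ((k : ℤ) - k') : ℤ) : ℝ) * x)‖ ^ 2 := by
  have key : ((∫ p in E ×ˢ E, ‖∑ k ∈ Finset.range n, ee (k * (2 * h * (p.1 - p.2)))‖ ^ 2 : ℝ) : ℂ) =
      ((∑ k ∈ Finset.range n, ∑ k' ∈ Finset.range n,
        ‖∫ x in E, ee (((2 * h * ((k : ℤ) - k') : ℤ) : ℝ) * x)‖ ^ 2 : ℝ) : ℂ) := by
    rw [← integral_complex_ofReal]
    simp_rw [sq_expand]
    have hI : ∀ k ∈ Finset.range n, ∀ k' ∈ Finset.range n,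
        Integrable (fun p : ℝ × ℝ => ee (((k : ℤ) - k' : ℤ) * (2 * h * (p.1 - p.2))))
          (volume.restrict (E ×ˢ E)) := by
      intro k _ k' _
      refine int_on E hE _ ?_
      exact sq_ee_cont.comp (by fun_prop)
    rw [integral_finsetSum _ (fun k hk => integrable_finsetSum _ (fun k' hk' => hI k hk k' hk'))]
    rw [Complex.ofReal_sum]
    refine Finset.sum_congr rfl fun k hk => ?_
    rw [integral_finsetSum _ (fun k' hk' => hI k hk k' hk'), Complex.ofReal_sum]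
    refine Finset.sum_congr rfl fun k' _ => ?_
    rw [← int_diff]
    congr 1
    funext p
    congr 1
    push_cast; ring
  exact_mod_cast key

theorem thm_SQ (hK : St_KER) (hD : St_DBL) : St_SQ := by
  intro ε hε
  obtain ⟨C, hC, hCb⟩ := hD ε hε
  refine ⟨3 + 16 * C, by positivity, ?_⟩
  intro N hN φ _ E hEm hE
  -- choose J
  obtain ⟨J, hJ1, hJ2⟩ : ∃ J : ℕ, 2 * N + 1 ≤ 2 ^ J ∧ 2 ^ J ≤ 4 * N + 2 := by
    refine ⟨Nat.clog 2 (2 * N + 1), Nat.le_pow_clog (by norm_num) _, ?_⟩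
    have h1 : 1 < 2 * N + 1 := by omega
    have h2 := Nat.pow_pred_clog_lt_self (b := 2) (by norm_num) h1
    have h3 : 0 < Nat.clog 2 (2 * N + 1) := Nat.clog_pos (by norm_num) (by omega)
    obtain ⟨c, hc⟩ := Nat.exists_eq_succ_of_ne_zero h3.ne'
    rw [hc] at h2 ⊢
    simp only [Nat.pred_succ] at h2
    rw [Nat.pow_succ]; omega
  set μ := (volume E).toReal with hμ
  have hμ0 : 0 ≤ μ := ENNReal.toReal_nonneg
  have hE2 : (volume (E ×ˢ E)).toReal = μ ^ 2 := by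
    rw [Measure.volume_eq_prod, Measure.prod_prod, ENNReal.toReal_mul, sq]
  have hEfin : volume E ≠ ⊤ := by
    refine ne_top_of_le_ne_top ?_ (measure_mono hE)
    simp
  have hcont : ∀ (h : ℤ) (j : ℕ), Continuous (fun p : ℝ × ℝ =>
      (1 / 2 ^ j : ℝ) * ‖∑ k ∈ Finset.range (2 ^ j), ee (k * (2 * h * (p.1 - p.2)))‖ ^ 2) := by
    intro h j
    refine continuous_const.mul ((continuous_norm.comp ?_).pow 2)
    refine continuous_finsetSum _ fun k _ => ?_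
    exact sq_ee_cont.comp (by fun_prop)
  have hIcst : Integrable (fun _ : ℝ × ℝ => (2 * N + 1 : ℝ)) (volume.restrict (E ×ˢ E)) :=
    int_on E hE _ continuous_const
  have hIsum : Integrable (fun p : ℝ × ℝ => 16 * ∑ h ∈ hh N, ∑ j ∈ Finset.range (J + 1),
      (1 / 2 ^ j : ℝ) * ‖∑ k ∈ Finset.range (2 ^ j), ee (k * (2 * h * (p.1 - p.2)))‖ ^ 2)
      (volume.restrict (E ×ˢ E)) := by
    refine int_on E hE _ ?_
    refine continuous_const.mul (continuous_finsetSum _ fun h _ => continuous_finsetSum _ fun j _ => ?_)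
    exact hcont h j
  have h1 : ∫ p in E ×ˢ E, ‖KK N (φ p.1 - φ p.2) (p.1 - p.2)‖ ^ 2 ≤
      ∫ p in E ×ˢ E, ((2 * N + 1 : ℝ) + 16 * ∑ h ∈ hh N, ∑ j ∈ Finset.range (J + 1),
      (1 / 2 ^ j : ℝ) * ‖∑ k ∈ Finset.range (2 ^ j), ee (k * (2 * h * (p.1 - p.2)))‖ ^ 2) := by
    refine integral_mono_of_nonneg (Filter.Eventually.of_forall fun p => by positivity)
      (hIcst.add hIsum) (Filter.Eventually.of_forall fun p => ?_)
    exact hK N J hJ1 _ _
  rw [integral_add hIcst hIsum] at h1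
  have h2 : ∫ p in E ×ˢ E, (2 * N + 1 : ℝ) = (2 * N + 1) * μ ^ 2 := by
    rw [integral_const, smul_eq_mul, Measure.real, Measure.restrict_apply_univ, hE2]; ring
  have h3 : ∫ p in E ×ˢ E, (16 * ∑ h ∈ hh N, ∑ j ∈ Finset.range (J + 1),
      (1 / 2 ^ j : ℝ) * ‖∑ k ∈ Finset.range (2 ^ j), ee (k * (2 * h * (p.1 - p.2)))‖ ^ 2) =
      16 * ∑ h ∈ hh N, ∑ j ∈ Finset.range (J + 1), (1 / 2 ^ j : ℝ) *
        ∑ k ∈ Finset.range (2 ^ j), ∑ k' ∈ Finset.range (2 ^ j),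
        ‖∫ x in E, ee (((2 * h * ((k : ℤ) - k') : ℤ) : ℝ) * x)‖ ^ 2 := by
    rw [integral_const_mul]
    congr 1
    rw [integral_finsetSum _ (fun h _ => integrable_finsetSum _ (fun j _ =>
      int_on E hE _ (hcont h j)))]
    refine Finset.sum_congr rfl fun h _ => ?_
    rw [integral_finsetSum _ (fun j _ => int_on E hE _ (hcont h j))]
    refine Finset.sum_congr rfl fun j _ => ?_
    rw [integral_const_mul, int_sq E hE]
  rw [h2, h3] at h1
  have h4 := hCb N J hN hJ2 E hEm hE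
  have hN1 : (1 : ℝ) ≤ N := by exact_mod_cast hN
  have hpow : (1 : ℝ) ≤ (N : ℝ) ^ ε := Real.one_le_rpow hN1 hε.le
  have h5 : (2 * N + 1 : ℝ) * μ ^ 2 ≤ 3 * (N : ℝ) ^ ε * (N * μ ^ 2 + μ) := by
    have h6 : (2 * N + 1 : ℝ) * μ ^ 2 ≤ 3 * (N * μ ^ 2 + μ) := by nlinarith [sq_nonneg μ]
    have h7 : 0 ≤ N * μ ^ 2 + μ := by positivity
    nlinarith
  calc _ ≤ _ := h1
    _ ≤ 3 * (N : ℝ) ^ ε * (N * μ ^ 2 + μ) + 16 * (C * (N : ℝ) ^ ε * (N * μ ^ 2 + μ)) := by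
        gcongr
    _ = _ := by ring

end Pool.Agent.LVS
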