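import Pool.Agent.LVS.St
import Pool.Agent.LVS.GEO
import Pool.Agent.LVS.KER
import Pool.Agent.LVS.BES
import Pool.Agent.LVS.DIV
import Pool.Agent.LVS.DBL
import Pool.Agent.LVS.SQ
import Pool.Agent.LVS.DUAL
import Pool.Agent.LVS.LV
import Pool.Agent.LVS.FIN

set_option autoImplicit false

/-! MP_1e9ba9_an, LargeValues: all pages together. -/

namespace Pool.Agent.LVS

theorem all_FIN : St_FIN :=
  thm_FIN (thm_LV (thm_SQ (thm_KER thm_GEO) (thm_DBL thm_BES thm_DIV)) thm_DUAL)

end Pool.Agent.LVS
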